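import Mathlib
import Pool.Agent.H70.LP.Core

/-!
Variant of the core construction with control of the primes dividing `n`.
-/

set_option autoImplicit false

namespace Pool.Agent.H70.TS

open Finset Pool.Agent.H70.LP

/-- Greedy choice of one nonzero residue class for each modulus. -/
theorem greedy' (Q : Finset ℕ) (hQ : ∀ q ∈ Q, 2 ≤ q) (S : Finset ℕ)
    (hS : ∀ s ∈ S, ∀ q ∈ Q, s % q ≠ 0) :
    ∃ r : ℕ → ℕ, (((S.filter (fun s => ∀ q ∈ Q, s % q ≠ r q)).card : ℝ)
      ≤ S.card * ∏ q ∈ Q, (1 - 1 / (q : ℝ))) ∧ ∀ q ∈ Q, 0 < r q ∧ r q < q := by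
  classical
  induction Q using Finset.induction_on with
  | empty => exact ⟨fun _ => 0, by simp, by simp⟩
  | insert q Q hq ih =>
    obtain ⟨r, hr, hr2⟩ := ih (fun x hx => hQ x (mem_insert_of_mem hx))
      (fun s hs x hx => hS s hs x (mem_insert_of_mem hx))
    have hq2 : 2 ≤ q := hQ q (mem_insert_self _ _)
    have hq0 : 0 < q := by omega
    set S' := S.filter (fun s => ∀ q ∈ Q, s % q ≠ r q) with hS'
    obtain ⟨a, ha0, ha, hle⟩ : ∃ a, 0 < a ∧ a < q ∧
        S'.card ≤ q * (S'.filter (fun s => s % q = a)).card := by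
      rcases S'.eq_empty_or_nonempty with hemp | hne
      · exact ⟨1, one_pos, by omega, by rw [hemp]; simp⟩
      · by_contra hcon
        push Not at hcon
        have h1 : S'.card = ∑ a ∈ range q, (S'.filter (fun s => s % q = a)).card :=
          card_eq_sum_card_fiberwise (fun s _ => by simpa using Nat.mod_lt s hq0)
        have h0 : ∀ a ∈ range q, q * (S'.filter (fun s => s % q = a)).card < S'.card := by
          intro a ha
          rcases Nat.eq_zero_or_pos a with h | h
          · subst h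
            have : S'.filter (fun s => s % q = 0) = ∅ := by
              rw [filter_eq_empty_iff]
              intro s hs
              exact hS s (mem_filter.1 hs).1 q (mem_insert_self _ _)
            rw [this]
            simpa using hne.card_pos
          · exact hcon a h (mem_range.1 ha)
        have h2 : ∑ a ∈ range q, q * (S'.filter (fun s => s % q = a)).card
            < ∑ a ∈ range q, S'.card :=
          sum_lt_sum_of_nonempty (by simpa using hq0.ne') h0
        rw [← mul_sum, ← h1] at h2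
        simp at h2
    refine ⟨Function.update r q a, ?_, ?_⟩
    · have hsub : S.filter (fun s => ∀ x ∈ insert q Q, s % x ≠ Function.update r q a x)
          = S'.filter (fun s => ¬ s % q = a) := by
        ext s
        simp only [hS', mem_filter, mem_insert, forall_eq_or_imp, Function.update_self]
        constructor
        · rintro ⟨h1, h2, h3⟩
          refine ⟨⟨h1, fun x hx => ?_⟩, h2⟩
          have := h3 x hx
          rwa [Function.update_of_ne (by rintro rfl; exact hq hx)] at this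
        · rintro ⟨⟨h1, h3⟩, h2⟩
          refine ⟨h1, h2, fun x hx => ?_⟩
          rw [Function.update_of_ne (by rintro rfl; exact hq hx)]
          exact h3 x hx
      rw [hsub, prod_insert hq]
      have h3 : (S'.filter (fun s => s % q = a)).card + (S'.filter (fun s => ¬ s % q = a)).card
          = S'.card := card_filter_add_card_filter_not _
      have h3' : ((S'.filter (fun s => s % q = a)).card : ℝ)
          + ((S'.filter (fun s => ¬ s % q = a)).card : ℝ) = S'.card := by exact_mod_cast h3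
      have hle' : (S'.card : ℝ) ≤ q * ((S'.filter (fun s => s % q = a)).card : ℝ) := by
        exact_mod_cast hle
      have hq1 : (0 : ℝ) < q := by exact_mod_cast hq0
      have hdiv : (S'.card : ℝ) / q ≤ ((S'.filter (fun s => s % q = a)).card : ℝ) := by
        rw [div_le_iff₀ hq1]; linarith
      have hfac : (0 : ℝ) ≤ 1 - 1 / (q : ℝ) := by
        have : 1 / (q : ℝ) ≤ 1 := by
          rw [div_le_one hq1]; exact_mod_cast hq0
        linarith
      calc ((S'.filter (fun s => ¬ s % q = a)).card : ℝ)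
          ≤ S'.card - S'.card / q := by linarith
        _ = (1 - 1 / (q : ℝ)) * S'.card := by ring
        _ ≤ (1 - 1 / (q : ℝ)) * (S.card * ∏ q ∈ Q, (1 - 1 / (q : ℝ))) :=
            mul_le_mul_of_nonneg_left hr hfac
        _ = _ := by ring
    · intro x hx
      rcases mem_insert.1 hx with h | h
      · subst h
        rw [Function.update_self]
        exact ⟨ha0, ha⟩
      · rw [Function.update_of_ne (by rintro rfl; exact hq h)]
        exact hr2 x h

/-- Averaging over a common shift. -/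
theorem avg_shift' (M : Finset ℕ) (hM : M.Nonempty) (P : Finset ℕ) (y : ℕ) (hy : 0 < y)
    (hP : ∀ p ∈ P, 1 ≤ p ∧ p ≤ y) :
    ∃ a : ℕ, 1 ≤ a ∧ a ≤ y ∧ (P.filter (fun p => ∀ q ∈ M, p % q ≠ a % q)).card * y
      ≤ 2 * P.card * ((Icc 1 y).filter (fun d => ∀ q ∈ M, ¬ q ∣ d)).card := by
  classical
  set T := (Icc 1 y).filter (fun d => ∀ q ∈ M, ¬ q ∣ d) with hT
  by_contra hcon
  push Not at hcon
  have h1 : ∑ a ∈ Icc 1 y, 2 * P.card * T.card
      < ∑ a ∈ Icc 1 y, (P.filter (fun p => ∀ q ∈ M, p % q ≠ a % q)).card * y :=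
    sum_lt_sum_of_nonempty (by simpa using (by omega : 1 ≤ y))
      (fun a ha => hcon a (mem_Icc.1 ha).1 (mem_Icc.1 ha).2)
  rw [sum_const, Nat.card_Icc, smul_eq_mul, add_tsub_cancel_right] at h1
  have h2 : 2 * P.card * T.card
      < ∑ a ∈ Icc 1 y, (P.filter (fun p => ∀ q ∈ M, p % q ≠ a % q)).card := by
    have h1' : 2 * P.card * T.card * y
        < (∑ a ∈ Icc 1 y, (P.filter (fun p => ∀ q ∈ M, p % q ≠ a % q)).card) * y := by
      calc 2 * P.card * T.card * y = y * (2 * P.card * T.card) := by ring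
        _ < _ := h1
        _ = _ := by rw [sum_mul]
    exact lt_of_mul_lt_mul_right h1' (Nat.zero_le y)
  have h3 : ∑ a ∈ Icc 1 y, (P.filter (fun p => ∀ q ∈ M, p % q ≠ a % q)).card
      = ∑ p ∈ P, ((Icc 1 y).filter (fun a => ∀ q ∈ M, p % q ≠ a % q)).card := by
    simp only [card_filter]
    exact sum_comm
  rw [h3] at h2
  have h4 : ∀ p ∈ P, ((Icc 1 y).filter (fun a => ∀ q ∈ M, p % q ≠ a % q)).card
      ≤ 2 * T.card := by
    intro p hp
    obtain ⟨hp1, hp2⟩ := hP p hp
    obtain ⟨q0, hq0⟩ := hM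
    have hsub : (Icc 1 y).filter (fun a => ∀ q ∈ M, p % q ≠ a % q)
        ⊆ T.image (fun d => p - d) ∪ T.image (fun d => p + d) := by
      intro a ha
      simp only [mem_filter, mem_Icc] at ha
      obtain ⟨⟨ha1, ha2⟩, ha3⟩ := ha
      have hne : a ≠ p := by
        rintro rfl
        exact ha3 q0 hq0 rfl
      simp only [mem_union, mem_image, hT, mem_filter, mem_Icc]
      rcases lt_or_gt_of_ne hne with hlt | hgt
      · left
        refine ⟨p - a, ⟨⟨by omega, by omega⟩, fun q hq hdvd => ?_⟩, by omega⟩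
        exact ha3 q hq ((Nat.modEq_iff_dvd' hlt.le).2 hdvd).symm
      · right
        refine ⟨a - p, ⟨⟨by omega, by omega⟩, fun q hq hdvd => ?_⟩, by omega⟩
        exact ha3 q hq ((Nat.modEq_iff_dvd' hgt.le).2 hdvd)
    calc _ ≤ (T.image (fun d => p - d) ∪ T.image (fun d => p + d)).card := card_le_card hsub
      _ ≤ (T.image (fun d => p - d)).card + (T.image (fun d => p + d)).card := card_union_le _ _
      _ ≤ T.card + T.card := add_le_add card_image_le card_image_le
      _ = 2 * T.card := by ring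
  have h5 := sum_le_sum h4
  rw [sum_const, smul_eq_mul] at h5
  have : P.card * (2 * T.card) = 2 * P.card * T.card := by ring
  omega

/-- the modulus -/
def Md (z : ℕ) : ℕ := ∏ q ∈ (Icc 3 z).filter Nat.Prime, q

theorem core2 (y w z1 z : ℕ) (hw : 2 ≤ w) (hwz : w ≤ z1) (hz : z1 ≤ z) (hy : 0 < y)
    (hM : ((Ioc w z1).filter Nat.Prime).Nonempty)
    (h : 2 * ((((Icc 1 y).filter Nat.Prime).card : ℕ) : ℝ) * (sift y w z1 : ℝ) / y
      * ∏ q ∈ (Icc 3 w).filter Nat.Prime, (1 - 1 / (q : ℝ)) + w
      ≤ (((Ioc z1 z).filter Nat.Prime).card : ℝ)) :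
    ∃ k a : ℕ, 1 ≤ a ∧ a ≤ y ∧ ∀ n : ℕ, n ≡ k [MOD Md z] →
      (∀ p : ℕ, p.Prime → p ≤ y → ∃ q : ℕ, q.Prime ∧ q ≤ z ∧ 2 * n ≡ p [MOD q]) ∧
      (∀ q : ℕ, q.Prime → 3 ≤ q → q ≤ z1 → q ∣ n → w < q ∧ q ∣ a) := by
  classical
  set P := (Icc 1 y).filter Nat.Prime with hP
  set M := (Ioc w z1).filter Nat.Prime with hMdef
  set Qs := (Icc 3 w).filter Nat.Prime with hQs
  set Lg := (Ioc z1 z).filter Nat.Prime with hLg
  obtain ⟨a, ha1, hay, ha⟩ := avg_shift' M hM P y hy (fun p hp => by
    simp only [hP, mem_filter, mem_Icc] at hp; exact hp.1)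
  set S1 := P.filter (fun p => ∀ q ∈ M, p % q ≠ a % q) with hS1
  set S1w := S1.filter (fun p => w < p) with hS1w
  have hS1wP : ∀ p ∈ S1w, p.Prime ∧ w < p := by
    intro p hp
    simp only [hS1w, hS1, hP, mem_filter] at hp
    exact ⟨hp.1.1.2, hp.2⟩
  obtain ⟨r, hr, hrpos⟩ := greedy' Qs (fun q hq => by
    simp only [hQs, mem_filter, mem_Icc] at hq; omega) S1w (by
      intro s hs q hq
      obtain ⟨hsp, hsw⟩ := hS1wP s hs
      simp only [hQs, mem_filter, mem_Icc] at hq
      intro h0
      have hd : q ∣ s := Nat.dvd_of_mod_eq_zero h0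
      have := (Nat.prime_dvd_prime_iff_eq hq.2 hsp).1 hd
      omega)
  set S2 := S1w.filter (fun s => ∀ q ∈ Qs, s % q ≠ r q) with hS2
  set S3 := S2 ∪ S1.filter (fun p => p ≤ w) with hS3
  have hprod0 : 0 ≤ ∏ q ∈ Qs, (1 - 1 / (q : ℝ)) := by
    refine prod_nonneg (fun q hq => ?_)
    simp only [hQs, mem_filter, mem_Icc] at hq
    have hq1 : (1 : ℝ) ≤ q := by exact_mod_cast (by omega : 1 ≤ q)
    have : 1 / (q : ℝ) ≤ 1 := by rw [div_le_one (by linarith)]; exact hq1
    linarith
  have hy' : (0 : ℝ) < y := by exact_mod_cast hy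
  have hcard : S3.card ≤ Lg.card := by
    have ha' : (S1.card : ℝ) * y ≤ 2 * (P.card : ℝ) * (sift y w z1 : ℝ) := by
      have : S1.card * y ≤ 2 * P.card * sift y w z1 := ha
      exact_mod_cast this
    have h1 : (S1.card : ℝ) ≤ 2 * (P.card : ℝ) * (sift y w z1 : ℝ) / y := by
      rw [le_div_iff₀ hy']; exact ha'
    have h1w : (S1w.card : ℝ) ≤ S1.card := by exact_mod_cast card_le_card (filter_subset _ _)
    have h3 : ((S1.filter (fun p => p ≤ w)).card : ℝ) ≤ w := by
      have : (S1.filter (fun p => p ≤ w)).card ≤ (Icc 1 w).card := by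
        refine card_le_card (fun p hp => ?_)
        simp only [hS1, hP, mem_filter] at hp
        exact mem_Icc.2 ⟨hp.1.1.2.one_lt.le, hp.2⟩
      rw [Nat.card_Icc, add_tsub_cancel_right] at this
      exact_mod_cast this
    have h4 : (S3.card : ℝ) ≤ S2.card + (S1.filter (fun p => p ≤ w)).card := by
      exact_mod_cast card_union_le _ _
    have h5 : (S2.card : ℝ) ≤ 2 * (P.card : ℝ) * (sift y w z1 : ℝ) / y
        * ∏ q ∈ Qs, (1 - 1 / (q : ℝ)) :=
      hr.trans (mul_le_mul_of_nonneg_right (h1w.trans h1) hprod0)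
    have h2 : (S3.card : ℝ) ≤ Lg.card := by linarith
    exact_mod_cast h2
  obtain ⟨L', hL', hL'card⟩ := exists_subset_card_eq hcard
  have e : S3 ≃ L' := Finset.equivOfCardEq hL'card.symm
  let g : ℕ → ℕ := fun q => if hq : q ∈ L' then ((e.symm ⟨q, hq⟩ : S3) : ℕ) else 0
  let R : ℕ → ℕ := fun q => if q ≤ w then r q else if q ≤ z1 then a else g q
  obtain ⟨k, hk⟩ := crt_class ((Icc 3 z).filter Nat.Prime) (fun q hq => by
    simp only [mem_filter, mem_Icc] at hq; exact ⟨hq.2, by omega⟩) R
  refine ⟨k, a, ha1, hay, fun n hn => ⟨?_, ?_⟩⟩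
  · intro p hp hpy
    have hn3 := hk n hn
    have hpP : p ∈ P := by
      simp only [hP, mem_filter, mem_Icc]
      exact ⟨⟨hp.one_lt.le, hpy⟩, hp⟩
    by_cases h1 : p ∈ S1
    · by_cases h2 : p ∈ S3
      · set q : L' := e ⟨p, h2⟩ with hq
        have hqL : (q : ℕ) ∈ Lg := hL' q.2
        simp only [hLg, mem_filter, mem_Ioc] at hqL
        refine ⟨q, hqL.2, hqL.1.2, ?_⟩
        have h3 := hn3 q (by simp only [mem_filter, mem_Icc]; exact ⟨⟨by omega, hqL.1.2⟩, hqL.2⟩)
        have h4 : R q = p := by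
          have hw' : ¬ (q : ℕ) ≤ w := by omega
          have hz' : ¬ (q : ℕ) ≤ z1 := by omega
          simp only [R, g, hw', hz', if_false, q.2, dif_pos]
          simp [hq]
        rwa [h4] at h3
      · have hpw : w < p := by
          by_contra hcon
          refine h2 ?_
          rw [hS3, mem_union]
          right
          rw [mem_filter]
          exact ⟨h1, by omega⟩
        have h2' : p ∉ S2 := fun hc => h2 (by rw [hS3]; exact mem_union_left _ hc)
        simp only [hS2, hS1w, mem_filter, not_and, not_forall, not_not] at h2'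
        obtain ⟨q, hq, hqr⟩ := h2' ⟨h1, hpw⟩
        simp only [hQs, mem_filter, mem_Icc] at hq
        refine ⟨q, hq.2, by omega, ?_⟩
        have h3 := hn3 q (by simp only [mem_filter, mem_Icc]; exact ⟨⟨by omega, by omega⟩, hq.2⟩)
        have h4 : R q = r q := by
          simp only [R, hq.1.2, if_true]
        rw [h4, ← hqr] at h3
        exact h3.trans (Nat.mod_modEq _ _)
    · simp only [hS1, mem_filter, not_and, not_forall, not_not] at h1
      obtain ⟨q, hq, hqr⟩ := h1 hpP
      simp only [hMdef, mem_filter, mem_Ioc] at hq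
      refine ⟨q, hq.2, by omega, ?_⟩
      have h3 := hn3 q (by simp only [mem_filter, mem_Icc]; exact ⟨⟨by omega, by omega⟩, hq.2⟩)
      have h4 : R q = a := by
        have hw' : ¬ q ≤ w := by omega
        simp only [R, hw', if_false, hq.1.2, if_true]
      rw [h4] at h3
      exact h3.trans (show a % q = p % q from hqr.symm)
  · intro q hq hq3 hqz1 hqn
    have h3 := hk n hn q (by simp only [mem_filter, mem_Icc]; exact ⟨⟨by omega, by omega⟩, hq⟩)
    have h4 : R q ≡ 0 [MOD q] := by
      refine h3.symm.trans ?_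
      exact (Nat.modEq_zero_iff_dvd).2 (dvd_mul_of_dvd_right hqn 2)
    have h5 : q ∣ R q := (Nat.modEq_zero_iff_dvd).1 h4
    by_cases hqw : q ≤ w
    · exfalso
      have h6 : R q = r q := by simp only [R, hqw, if_true]
      rw [h6] at h5
      have h7 := hrpos q (by simp only [hQs, mem_filter, mem_Icc]; exact ⟨⟨hq3, hqw⟩, hq⟩)
      have := Nat.le_of_dvd h7.1 h5
      omega
    · have h6 : R q = a := by simp only [R, hqw, if_false, hqz1, if_true]
      rw [h6] at h5
      exact ⟨by omega, h5⟩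

theorem Md_pos (z : ℕ) : 0 < Md z := prod_pos (fun q hq => (mem_filter.1 hq).2.pos)

theorem Md_le (z : ℕ) : Md z ≤ 4 ^ z := by
  refine le_trans ?_ (primorial_le_four_pow z)
  unfold primorial Md
  refine prod_le_prod_of_subset_of_one_le' ?_ (fun q hq _ => ?_)
  · intro q hq
    simp only [mem_filter, mem_Icc, mem_range] at hq ⊢
    exact ⟨by omega, hq.2⟩
  · simp only [mem_filter] at hq
    exact hq.2.one_lt.le

theorem Md_odd (z : ℕ) : Md z % 2 = 1 := by
  unfold Md
  rw [← Nat.odd_iff]
  refine Finset.prod_induction _ _ (fun a b ha hb => ha.mul hb) odd_one (fun q hq => ?_)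
  simp only [mem_filter, mem_Icc] at hq
  exact hq.2.odd_of_ne_two (by omega)

theorem dvd_Md {q z : ℕ} (hq : q.Prime) (h3 : 3 ≤ q) (hz : q ≤ z) : q ∣ Md z :=
  dvd_prod_of_mem _ (by simp only [mem_filter, mem_Icc]; exact ⟨⟨h3, hz⟩, hq⟩)

theorem coprime_Md {q z : ℕ} (hq : q.Prime) (hz : z < q) : Nat.Coprime (Md z) q := by
  unfold Md
  refine Nat.Coprime.prod_left (fun p hp => ?_)
  simp only [mem_filter, mem_Icc] at hp
  exact (Nat.coprime_primes hp.2 hq).2 (by omega)

end Pool.Agent.H70.TS
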