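import Mathlib
import Pool.Agent.H70.SP.Tuple

/-!
The upper bound sieve of dimension `k ≤ 8` with the sharp local factor at the bad primes.
-/

set_option autoImplicit false

namespace Pool.Agent.H70.TS

open Finset Pool.Agent.H70.LP Pool.Agent.H70.SP

theorem inv_factor {p : ℕ} (hp : 2 ≤ p) : 0 < 1 - 1 / (p : ℝ) ∧ 1 ≤ (1 - 1 / (p : ℝ))⁻¹ := by
  have h1 : (2 : ℝ) ≤ p := by exact_mod_cast hp
  have h2 : 1 / (p : ℝ) ≤ 1 / 2 := one_div_le_one_div_of_le (by norm_num) h1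
  have h3 : 0 ≤ 1 / (p : ℝ) := by positivity
  refine ⟨by linarith, ?_⟩
  rw [one_le_inv₀ (by linarith)]
  linarith

/-- The sifting density, compared with `(log)^{-k}`. -/
theorem prod_dens_le' (R : ℕ → Finset ℕ) (k : ℕ) (hk : k ≤ 8) (hRc : ∀ p, (R p).card ≤ k)
    (bad : Finset ℕ) (hb2 : ∀ p ∈ bad, 2 ≤ p)
    (hgood : ∀ p, p.Prime → 16 < p → p ∉ bad → (R p).card = k) (r : ℕ) :
    ∏ i ∈ range r, ∏ p ∈ Bl i, (1 - dens R p)
      ≤ (64 / (2 ^ r * Real.log 2)) ^ k * (∏ p ∈ bad, (1 - 1 / (p : ℝ))⁻¹) ^ k := by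
  classical
  have hUprime : ∀ p ∈ U r, p.Prime ∧ 16 < p := by
    intro p hp
    unfold U at hp
    obtain ⟨i, -, hi⟩ := mem_biUnion.1 hp
    exact ⟨(mem_Bl hi).2.2.2.1, (mem_Bl hi).2.2.2.2⟩
  have h1 : ∏ i ∈ range r, ∏ p ∈ Bl i, (1 - dens R p) = ∏ p ∈ U r, (1 - dens R p) := by
    unfold U
    rw [prod_biUnion]
    intro i _ j _ hij
    exact Bl_disjoint hij
  rw [h1]
  have hd : ∀ p ∈ U r, 0 ≤ 1 - dens R p := by
    intro p hp
    have h16 : (16 : ℝ) < p := by exact_mod_cast (hUprime p hp).2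
    have h7 : ((R p).card : ℝ) ≤ 8 := by exact_mod_cast (hRc p).trans hk
    unfold SP.dens
    have : ((R p).card : ℝ) / p ≤ 1 := by rw [div_le_one (by linarith)]; linarith
    linarith
  have h2 : ∀ p ∈ U r, 1 - dens R p ≤ (1 - 1 / (p : ℝ)) ^ k
      * (if p ∈ bad then ((1 - 1 / (p : ℝ))⁻¹) ^ k else 1) := by
    intro p hp
    obtain ⟨hpp, h16⟩ := hUprime p hp
    have h16' : (16 : ℝ) < p := by exact_mod_cast h16
    have hp0 : (0 : ℝ) < p := by linarith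
    split_ifs with hb
    · rw [← mul_pow, mul_inv_cancel₀ (inv_factor (by omega : 2 ≤ p)).1.ne', one_pow]
      have h5 : 0 ≤ dens R p := by unfold SP.dens; positivity
      linarith
    · rw [mul_one]
      have h3 := hgood p hpp h16 hb
      have h4 : dens R p = k / p := by unfold SP.dens; rw [h3]
      rw [h4]
      have h5 : (-2 : ℝ) ≤ -(1 / (p : ℝ)) := by
        have : 1 / (p : ℝ) ≤ 1 := by rw [div_le_one hp0]; linarith
        linarith
      have h6 := one_add_mul_le_pow h5 k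
      have h7 : 1 + (k : ℝ) * -(1 / (p : ℝ)) = 1 - k / p := by ring
      rw [h7] at h6
      exact h6
  refine (prod_le_prod hd h2).trans ?_
  rw [prod_mul_distrib, prod_pow, ← prod_pow]
  have hfac : ∀ p ∈ U r, 0 ≤ 1 - 1 / (p : ℝ) := by
    intro p hp
    have h16 : (16 : ℝ) < p := by exact_mod_cast (hUprime p hp).2
    have : 1 / (p : ℝ) ≤ 1 := by rw [div_le_one (by linarith)]; linarith
    linarith
  have h3 : ∏ p ∈ U r, (1 - 1 / (p : ℝ)) ^ k ≤ (64 / (2 ^ r * Real.log 2)) ^ k := by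
    rw [prod_pow]
    exact pow_le_pow_left₀ (prod_nonneg hfac) (prod_U_le r) k
  have h4 : ∏ p ∈ U r, (if p ∈ bad then ((1 - 1 / (p : ℝ))⁻¹) ^ k else 1)
      ≤ (∏ p ∈ bad, (1 - 1 / (p : ℝ))⁻¹) ^ k := by
    rw [← prod_filter, ← prod_pow]
    refine prod_le_prod_of_subset_of_one_le (fun p hp => (mem_filter.1 hp).2)
      (fun p hp => ?_) (fun p hp _ => ?_)
    · have := (inv_factor (hb2 p (mem_filter.1 hp).2)).1
      positivity
    · exact one_le_pow₀ (inv_factor (hb2 p hp)).2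
  refine mul_le_mul h3 h4 (prod_nonneg (fun p _ => ?_)) (by
    have : 0 < Real.log 2 := Real.log_pos (by norm_num)
    positivity)
  split_ifs with h
  · have := (inv_factor (hb2 p h)).1
    positivity
  · norm_num

/-- Upper bound sieve of dimension `k ≤ 8`. -/
theorem tuple_sieve' : ∃ C : ℝ, 0 < C ∧ ∃ N₀ : ℕ, ∀ N : ℕ, N₀ ≤ N →
    ∀ (R : ℕ → Finset ℕ) (k : ℕ), k ≤ 8 → (∀ p, R p ⊆ range p) → (∀ p, (R p).card ≤ k) →
    ∀ bad : Finset ℕ, (∀ p ∈ bad, 2 ≤ p) →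
    (∀ p, p.Prime → 16 < p → p ∉ bad → (R p).card = k) →
    ∀ A : Finset ℕ, A ⊆ Icc 1 N →
      (∀ n ∈ A, ∀ p, p.Prime → 16 < p → p ^ 2 ≤ N → n % p ∉ R p) →
      (A.card : ℝ) ≤ C * (N / Real.log N ^ k) * (∏ p ∈ bad, (1 - 1 / (p : ℝ))⁻¹) ^ k := by
  classical
  refine ⟨Real.exp (Real.exp 576) * 2400 ^ 8 + 2 ^ 110 * 25 ^ 8, by positivity, 2 ^ 18,
    fun N hN R k hk hRs hRc bad hb2 hgood A hAN hA => ?_⟩
  have hN0 : N ≠ 0 := by
    have : 0 < 2 ^ 18 := by norm_num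
    omega
  set l := Nat.log 2 N with hl
  set m := l / 18 with hm
  set r := Nat.log 2 m with hr
  have hl18 : 18 ≤ l := Nat.le_log_of_pow_le (by norm_num) hN
  have hm1 : 1 ≤ m := by omega
  have e1 : 2 ^ l ≤ N := Nat.pow_log_le_self 2 hN0
  have e2 : N < 2 ^ (l + 1) := Nat.lt_pow_succ_log_self (by norm_num) N
  have e3 : 2 ^ r ≤ m := Nat.pow_log_le_self 2 (by omega)
  have e4 : m < 2 ^ (r + 1) := Nat.lt_pow_succ_log_self (by norm_num) m
  have e5 : 18 * 2 ^ r ≤ l := by omega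
  have e6 : l + 1 ≤ 36 * 2 ^ r := by rw [pow_succ] at e4; omega
  have f1 : 2 ^ (18 * 2 ^ r) ≤ N := (Nat.pow_le_pow_right (by norm_num) e5).trans e1
  have f2 : N ≤ 2 ^ (36 * 2 ^ r) := e2.le.trans (Nat.pow_le_pow_right (by norm_num) e6)
  have hNr : (0 : ℝ) < N := by exact_mod_cast Nat.pos_of_ne_zero hN0
  have hlog2 : 0 < Real.log 2 := Real.log_pos (by norm_num)
  have hlogN : Real.log N ≤ 25 * 2 ^ r := by
    have h1 : Real.log N ≤ Real.log ((2 : ℝ) ^ (36 * 2 ^ r)) :=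
      Real.log_le_log hNr (by exact_mod_cast f2)
    rw [Real.log_pow] at h1
    push_cast at h1
    have h2 := Real.log_two_lt_d9
    have h3 : (0 : ℝ) < 2 ^ r := by positivity
    nlinarith
  have hlogN0 : 0 < Real.log N := Real.log_pos (by
    have : (2 : ℝ) ^ 18 ≤ N := by exact_mod_cast hN
    linarith)
  -- the sieve
  have hB : ∀ i < r, ∀ p ∈ Bl i, p.Prime ∧ R p ⊆ range p := fun i _ p hp =>
    ⟨(mem_Bl hp).2.2.2.1, hRs p⟩
  have hs := sieve_upper N R Bl (fun i => r - i) r hB (fun i _ j _ hij => Bl_disjoint hij)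
  have hsub : A.card
      ≤ ((Icc 1 N).filter (fun n => ∀ i < r, ∀ p ∈ Bl i, n % p ∉ R p)).card := by
    refine card_le_card (fun n hn => ?_)
    rw [mem_filter]
    refine ⟨hAN hn, fun i hi p hp => ?_⟩
    obtain ⟨h1, h2, h3, h4, h5⟩ := mem_Bl hp
    refine hA n hn p h4 h5 ?_
    have h6 : p ≤ 2 ^ 2 ^ r :=
      h3.trans (Nat.pow_le_pow_right (by norm_num) (Nat.pow_le_pow_right (by norm_num) hi))
    calc p ^ 2 ≤ (2 ^ 2 ^ r) ^ 2 := Nat.pow_le_pow_left h6 2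
      _ = 2 ^ (2 ^ r * 2) := by rw [← pow_mul]
      _ ≤ 2 ^ (18 * 2 ^ r) := Nat.pow_le_pow_right (by norm_num) (by omega)
      _ ≤ N := f1
  have hsub' : (A.card : ℝ)
      ≤ (((Icc 1 N).filter (fun n => ∀ i < r, ∀ p ∈ Bl i, n % p ∉ R p)).card : ℝ) := by
    exact_mod_cast hsub
  refine hsub'.trans (hs.trans ?_)
  have hR8 : ∀ p, (R p).card ≤ 8 := fun p => (hRc p).trans hk
  have hmain := (main_prod_le R hR8 r).trans (mul_le_mul_of_nonneg_left
    (prod_dens_le' R k hk hRc bad hb2 hgood r) (Real.exp_pos _).le)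
  have herr := err_prod_le R hR8 r
  set F := (∏ p ∈ bad, (1 - 1 / (p : ℝ))⁻¹) ^ k with hF
  have hF1 : 1 ≤ F := by
    rw [hF]
    refine one_le_pow₀ ?_
    calc (1 : ℝ) = ∏ p ∈ bad, (1 : ℝ) := by simp
      _ ≤ _ := prod_le_prod (fun _ _ => by norm_num) (fun p hp => (inv_factor (hb2 p hp)).2)
  have hx : (0 : ℝ) < 2 ^ r := by positivity
  have g1 : (64 / (2 ^ r * Real.log 2)) ^ k ≤ 2400 ^ 8 / Real.log N ^ k := by
    have h1 : 64 / (2 ^ r * Real.log 2) ≤ 2400 / Real.log N := by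
      rw [div_le_div_iff₀ (by positivity) hlogN0]
      have := Real.log_two_gt_d9
      nlinarith
    calc (64 / (2 ^ r * Real.log 2)) ^ k ≤ (2400 / Real.log N) ^ k :=
          pow_le_pow_left₀ (by positivity) h1 k
      _ = 2400 ^ k / Real.log N ^ k := by rw [div_pow]
      _ ≤ 2400 ^ 8 / Real.log N ^ k :=
          div_le_div_of_nonneg_right (pow_le_pow_right₀ (by norm_num) hk) (by positivity)
  have g2 : (2 : ℝ) ^ (10 * 2 ^ r) ≤ 25 ^ 8 * (N / Real.log N ^ k) := by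
    have h1 : (2 : ℝ) ^ (10 * 2 ^ r) * 2 ^ (8 * 2 ^ r) ≤ (N : ℝ) := by
      have h0 : 10 * 2 ^ r + 8 * 2 ^ r = 18 * 2 ^ r := by ring
      rw [← pow_add, h0]
      exact_mod_cast f1
    have h2 : Real.log N ^ k ≤ 25 ^ 8 * 2 ^ (8 * 2 ^ r) := by
      have h3 : (2 : ℝ) ^ r ≤ 2 ^ 2 ^ r := by
        have : 2 ^ r ≤ 2 ^ 2 ^ r := Nat.pow_le_pow_right (by norm_num) (Nat.lt_two_pow_self).le
        exact_mod_cast this
      have h1r : (1 : ℝ) ≤ 2 ^ r := one_le_pow₀ (by norm_num)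
      calc Real.log N ^ k ≤ (25 * 2 ^ r) ^ k := pow_le_pow_left₀ hlogN0.le hlogN k
        _ ≤ (25 * 2 ^ r) ^ 8 := pow_le_pow_right₀ (by linarith) hk
        _ = 25 ^ 8 * (2 ^ r) ^ 8 := by rw [mul_pow]
        _ ≤ 25 ^ 8 * (2 ^ 2 ^ r) ^ 8 :=
            mul_le_mul_of_nonneg_left (pow_le_pow_left₀ hx.le h3 8) (by norm_num)
        _ = 25 ^ 8 * 2 ^ (8 * 2 ^ r) := by rw [← pow_mul]; congr 2; ring
    rw [mul_div_assoc', le_div_iff₀ (by positivity)]
    calc (2 : ℝ) ^ (10 * 2 ^ r) * Real.log N ^ k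
        ≤ 2 ^ (10 * 2 ^ r) * (25 ^ 8 * 2 ^ (8 * 2 ^ r)) :=
          mul_le_mul_of_nonneg_left h2 (by positivity)
      _ = 25 ^ 8 * (2 ^ (10 * 2 ^ r) * 2 ^ (8 * 2 ^ r)) := by ring
      _ ≤ 25 ^ 8 * N := mul_le_mul_of_nonneg_left h1 (by norm_num)
  have hq0 : 0 ≤ (N : ℝ) / Real.log N ^ k := by positivity
  have t1 : (N : ℝ) * ∏ i ∈ range r, D (2 * (r - i)) (Bl i) (dens R)
      ≤ Real.exp (Real.exp 576) * 2400 ^ 8 * (N / Real.log N ^ k) * F := by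
    calc (N : ℝ) * ∏ i ∈ range r, D (2 * (r - i)) (Bl i) (dens R)
        ≤ N * (Real.exp (Real.exp 576) * ((64 / (2 ^ r * Real.log 2)) ^ k * F)) :=
          mul_le_mul_of_nonneg_left hmain hNr.le
      _ ≤ N * (Real.exp (Real.exp 576) * (2400 ^ 8 / Real.log N ^ k * F)) := by
          refine mul_le_mul_of_nonneg_left (mul_le_mul_of_nonneg_left
            (mul_le_mul_of_nonneg_right g1 (by linarith)) (Real.exp_pos _).le) hNr.le
      _ = _ := by ring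
  have t2 : ∏ i ∈ range r, Er R (2 * (r - i)) (Bl i)
      ≤ 2 ^ 110 * 25 ^ 8 * (N / Real.log N ^ k) * F := by
    calc ∏ i ∈ range r, Er R (2 * (r - i)) (Bl i) ≤ 2 ^ 110 * (2 : ℝ) ^ (10 * 2 ^ r) := herr
      _ ≤ 2 ^ 110 * (25 ^ 8 * (N / Real.log N ^ k)) :=
          mul_le_mul_of_nonneg_left g2 (by positivity)
      _ = 2 ^ 110 * 25 ^ 8 * (N / Real.log N ^ k) * 1 := by ring
      _ ≤ _ := mul_le_mul_of_nonneg_left hF1 (by positivity)
  calc _ ≤ Real.exp (Real.exp 576) * 2400 ^ 8 * (N / Real.log N ^ k) * F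
        + 2 ^ 110 * 25 ^ 8 * (N / Real.log N ^ k) * F := add_le_add t1 t2
    _ = _ := by ring

end Pool.Agent.H70.TS
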