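import Mathlib
import Pool.Agent.H10.GoldLoc.Mertens
import Pool.Agent.H70.TS.Sieve
import Pool.Agent.H70.SP.Avg

/-!
Upper bound for the product of `(1 - 1/p)⁻¹` over the primes up to `z`.
-/

set_option autoImplicit false

namespace Pool.Agent.H70.TS

open Finset

/-- primes up to `z` -/
def Pz (z : ℕ) : Finset ℕ := (Icc 1 z).filter Nat.Prime

theorem mem_Pz {z p : ℕ} : p ∈ Pz z ↔ p.Prime ∧ p ≤ z := by
  unfold Pz
  rw [mem_filter, mem_Icc]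
  constructor
  · rintro ⟨⟨_, h⟩, hp⟩; exact ⟨hp, h⟩
  · rintro ⟨hp, h⟩; exact ⟨⟨hp.one_lt.le, h⟩, hp⟩

theorem inv_le_exp' {t : ℝ} (h0 : 0 ≤ t) (h1 : t ≤ 1 / 2) :
    (1 - t)⁻¹ ≤ Real.exp (t + 2 * t ^ 2) := by
  have h2 : 0 < 1 - t := by linarith
  rw [inv_le_iff_one_le_mul₀ h2]
  have h3 : t + 2 * t ^ 2 + 1 ≤ Real.exp (t + 2 * t ^ 2) := Real.add_one_le_exp _
  have h4 : 1 ≤ (t + 2 * t ^ 2 + 1) * (1 - t) := by
    nlinarith [sq_nonneg t, mul_nonneg h0 h0, mul_nonneg (mul_nonneg h0 h0) (sub_nonneg.2 h1)]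
  exact h4.trans (mul_le_mul_of_nonneg_right h3 h2.le)

theorem mertens_upper : ∃ C : ℝ, 0 < C ∧ ∀ z : ℕ, 1024 ≤ z →
    ∏ p ∈ Pz z, (1 - 1 / (p : ℝ))⁻¹ ≤ C * Real.log z := by
  obtain ⟨C, hC, hM⟩ := Pool.Agent.H10.GoldLoc.exists_mertens
  refine ⟨Real.exp (C + 2), Real.exp_pos _, fun z hz => ?_⟩
  have hlz : 0 < Real.log z := Real.log_pos (by exact_mod_cast (by omega : 1 < z))
  have h := hM z hz
  have hset : Pool.Agent.H10.GoldLoc.PP 0 z = Pz z := by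
    unfold Pool.Agent.H10.GoldLoc.PP Pz
    congr 1
  rw [hset] at h
  have h2 : ∏ p ∈ Pz z, (1 - 1 / (p : ℝ))⁻¹
      ≤ ∏ p ∈ Pz z, Real.exp (1 / (p : ℝ) + 2 * (1 / (p : ℝ) ^ 2)) := by
    refine prod_le_prod (fun p hp => ?_) (fun p hp => ?_)
    · have := (inv_factor (mem_Pz.1 hp).1.two_le).1
      positivity
    · have hp2 : (2 : ℝ) ≤ p := by exact_mod_cast (mem_Pz.1 hp).1.two_le
      have h3 : 1 / (p : ℝ) ≤ 1 / 2 := one_div_le_one_div_of_le (by norm_num) hp2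
      have h4 := inv_le_exp' (by positivity) h3
      have h5 : (1 / (p : ℝ)) ^ 2 = 1 / (p : ℝ) ^ 2 := by rw [div_pow, one_pow]
      rwa [h5] at h4
  refine h2.trans ?_
  rw [← Real.exp_sum, sum_add_distrib, ← mul_sum]
  have h3 := Pool.Agent.H70.SP.sum_inv_sq_primes z
  have h4 : ∑ p ∈ Pz z, 1 / (p : ℝ) ^ 2 ≤ 1 := h3
  calc Real.exp (∑ p ∈ Pz z, 1 / (p : ℝ) + 2 * ∑ p ∈ Pz z, 1 / (p : ℝ) ^ 2)
      ≤ Real.exp ((C + 2) + Real.log (Real.log z)) := Real.exp_le_exp.2 (by linarith)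
    _ = Real.exp (C + 2) * Real.log z := by rw [Real.exp_add, Real.exp_log hlz]

end Pool.Agent.H70.TS
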