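import Mathlib
import Pool.Agent.H70.SP.Pairs
import Pool.Agent.H70.TS.Mert
import Pool.Agent.H70.TS.Core

/-!
Counting the members of an arithmetic progression that have a close Goldbach solution.
-/

set_option autoImplicit false

namespace Pool.Agent.H70.TS

open Finset Pool.Agent.H70.LP Pool.Agent.H70.SP

theorem inv_exp {q : ℕ} (hq : 2 ≤ q) : (1 - 1 / (q : ℝ))⁻¹ ≤ Real.exp (2 / q) := by
  have hp2 : (2 : ℝ) ≤ q := by exact_mod_cast hq
  have h3 : 1 / (q : ℝ) ≤ 1 / 2 := one_div_le_one_div_of_le (by norm_num) hp2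
  refine (inv_le_exp' (by positivity) h3).trans (Real.exp_le_exp.2 ?_)
  have h4 : 0 ≤ 1 / (q : ℝ) := by positivity
  have h5 : (2 : ℝ) / q = 1 / q + 1 / q := by ring
  rw [h5]
  nlinarith

/-- product over few primes exceeding `w` -/
theorem few_primes (S : Finset ℕ) (w : ℕ) (hw : 1 ≤ w) (hS : ∀ q ∈ S, 2 ≤ q ∧ w < q) (B : ℝ)
    (hB : (S.card : ℝ) ≤ B * w) :
    ∏ q ∈ S, (1 - 1 / (q : ℝ))⁻¹ ≤ Real.exp (2 * B) := by
  have hw0 : (0 : ℝ) < w := by exact_mod_cast hw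
  calc ∏ q ∈ S, (1 - 1 / (q : ℝ))⁻¹ ≤ ∏ q ∈ S, Real.exp (2 / w) := by
        refine prod_le_prod (fun q hq => ?_) (fun q hq => ?_)
        · have := (inv_factor (hS q hq).1).1
          positivity
        · refine (inv_exp (hS q hq).1).trans (Real.exp_le_exp.2 ?_)
          exact div_le_div_of_nonneg_left (by norm_num) hw0 (by exact_mod_cast (hS q hq).2.le)
    _ = Real.exp (S.card * (2 / w)) := by rw [prod_const, ← Real.exp_nat_mul]
    _ ≤ Real.exp (2 * B) := by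
        rw [Real.exp_le_exp]
        calc (S.card : ℝ) * (2 / w) ≤ (B * w) * (2 / w) :=
              mul_le_mul_of_nonneg_right hB (by positivity)
          _ = 2 * B := by field_simp

theorem card_le_log (S : Finset ℕ) (x : ℕ) (hx : 1 ≤ x) (hS : ∀ q ∈ S, q.Prime ∧ q ∣ x) :
    2 ^ S.card ≤ x := by
  have h1 : ∏ q ∈ S, q ∣ x := Finset.prod_primes_dvd x (fun q hq => (hS q hq).1.prime)
    (fun q hq => (hS q hq).2)
  calc 2 ^ S.card = ∏ q ∈ S, 2 := by rw [prod_const]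
    _ ≤ ∏ q ∈ S, q := prod_le_prod' (fun q hq => (hS q hq).1.two_le)
    _ ≤ x := Nat.le_of_dvd (by omega) h1

/-- the large prime factors of `x < z ^ 3` -/
theorem large_factors (x z : ℕ) (hx : 1 ≤ x) (hxz : x < z ^ 3) (S : Finset ℕ)
    (hS : ∀ q ∈ S, q.Prime ∧ q ∣ x ∧ z < q) :
    ∏ q ∈ S, (1 - 1 / (q : ℝ))⁻¹ ≤ 4 := by
  have h1 : ∏ q ∈ S, q ∣ x := Finset.prod_primes_dvd x (fun q hq => (hS q hq).1.prime)
    (fun q hq => (hS q hq).2.1)
  have h2 : z ^ S.card ≤ x := by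
    calc z ^ S.card = ∏ q ∈ S, z := by rw [prod_const]
      _ ≤ ∏ q ∈ S, q := prod_le_prod' (fun q hq => (hS q hq).2.2.le)
      _ ≤ x := Nat.le_of_dvd (by omega) h1
  have hz : 0 < z := by
    rcases Nat.eq_zero_or_pos z with h | h
    · subst h; simp at hxz
    · exact h
  have h3 : S.card ≤ 2 := by
    by_contra hcon
    have : z ^ 3 ≤ z ^ S.card := Nat.pow_le_pow_right hz (by omega)
    omega
  calc ∏ q ∈ S, (1 - 1 / (q : ℝ))⁻¹ ≤ ∏ q ∈ S, (2 : ℝ) := by
        refine prod_le_prod (fun q hq => ?_) (fun q hq => ?_)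
        · have := (inv_factor (hS q hq).1.two_le).1
          positivity
        · have hp2 : (2 : ℝ) ≤ q := by exact_mod_cast (hS q hq).1.two_le
          have h3 : 1 / (q : ℝ) ≤ 1 / 2 := one_div_le_one_div_of_le (by norm_num) hp2
          rw [inv_le_comm₀ (by linarith) (by norm_num)]
          linarith
    _ = 2 ^ S.card := by rw [prod_const]
    _ ≤ 2 ^ 2 := pow_le_pow_right₀ (by norm_num) h3
    _ = 4 := by norm_num

/-- the `m ≤ M` for which both translates are prime -/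
def Bx (n₀ P M x : ℕ) : Finset ℕ :=
  (Icc 1 M).filter (fun m => (n₀ + 2 * P * m - x).Prime ∧ (n₀ + 2 * P * m + x).Prime)

theorem Bx_le : ∃ C : ℝ, 0 < C ∧ ∃ M₀ : ℕ, ∀ M : ℕ, M₀ ≤ M → ∀ z n₀ x : ℕ, 2 ≤ z → 1 ≤ x →
    x < z ^ 3 → x + M < n₀ →
    ((Bx n₀ (Md z) M x).card : ℝ) ≤ C * (M / Real.log M ^ 2)
      * (∏ p ∈ Pz z, (1 - 1 / (p : ℝ))⁻¹) ^ 2 := by
  classical
  obtain ⟨C, hC, M₀, hM₀⟩ := tuple_sieve'
  refine ⟨C * 16, by positivity, M₀, fun M hM z n₀ x hz2 hx hxz hxn => ?_⟩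
  set P := Md z with hP
  -- the inverse of `2 P`
  let f : ℕ → ℤ := fun p => Nat.gcdA (2 * P) p
  have hcop : ∀ p : ℕ, p.Prime → z < p → Nat.Coprime (2 * P) p := by
    intro p hp hzp
    refine Nat.Coprime.mul_left ?_ (coprime_Md hp hzp)
    exact (Nat.coprime_primes Nat.prime_two hp).2 (by omega)
  have hf : ∀ p : ℕ, p.Prime → z < p → (p : ℤ) ∣ 2 * P * f p - 1 := by
    intro p hp hzp
    have h1 := Nat.gcd_eq_gcd_ab (2 * P) p
    rw [hcop p hp hzp] at h1
    push_cast at h1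
    refine ⟨-(Nat.gcdB (2 * P) p), ?_⟩
    simp only [f]
    linarith
  let H : ℕ → Finset ℤ := fun p => {f p * ((n₀ : ℤ) - x), f p * ((n₀ : ℤ) + x)}
  let R : ℕ → Finset ℕ := fun p => if p.Prime ∧ z < p then Rh (H p) p else ∅
  set big := x.primeFactors.filter (fun p => z < p) with hbig
  have hH2 : ∀ p, (H p).card ≤ 2 := fun p => card_le_two
  have hRs : ∀ p, R p ⊆ range p := by
    intro p
    simp only [R]
    split_ifs
    · exact filter_subset _ _
    · exact empty_subset _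
  have hRc : ∀ p, (R p).card ≤ 2 := by
    intro p
    simp only [R]
    split_ifs
    · exact (Rh_card_le _ _).trans (hH2 p)
    · simp
  have hgood : ∀ p, p.Prime → 16 < p → p ∉ Pz z ∪ big → (R p).card = 2 := by
    intro p hp h16 hpb
    rw [mem_union, not_or] at hpb
    have hzp : z < p := by
      by_contra hcon
      exact hpb.1 (mem_Pz.2 ⟨hp, by omega⟩)
    have hpx : ¬ p ∣ x := by
      intro hd
      refine hpb.2 ?_
      rw [hbig, mem_filter]
      exact ⟨Nat.mem_primeFactors.2 ⟨hp, hd, by omega⟩, hzp⟩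
    have hpz : Prime (p : ℤ) := Nat.prime_iff_prime_int.1 hp
    have hfp : ¬ (p : ℤ) ∣ f p := by
      intro hd
      have h1 := hf p hp hzp
      have h2 : (p : ℤ) ∣ 2 * P * f p := dvd_mul_of_dvd_right hd _
      have h3 : (p : ℤ) ∣ 1 := by
        have := dvd_sub h2 h1
        simpa using this
      have h4 : p ∣ 1 := by exact_mod_cast h3
      exact hp.one_lt.ne' (Nat.dvd_one.1 h4)
    have h2x : ¬ (p : ℤ) ∣ 2 * x := by
      intro hd
      have h5 : p ∣ 2 * x := by exact_mod_cast hd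
      rcases hp.dvd_mul.1 h5 with h6 | h6
      · have := Nat.le_of_dvd (by norm_num) h6
        omega
      · exact hpx h6
    have hdiff : ¬ (p : ℤ) ∣ f p * (2 * x) := fun hd => (hpz.dvd_or_dvd hd).elim hfp h2x
    have hne : f p * ((n₀ : ℤ) - x) ≠ f p * ((n₀ : ℤ) + x) := by
      intro he
      apply hdiff
      have : f p * (2 * (x : ℤ)) = f p * ((n₀ : ℤ) + x) - f p * ((n₀ : ℤ) - x) := by ring
      rw [this, he]
      simp
    have hRp : R p = Rh (H p) p := by simp only [R]; rw [if_pos ⟨hp, hzp⟩]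
    rw [hRp, Rh_card_eq (H p) p hp.pos, card_pair hne]
    intro h hh h' hh' hne' hd
    simp only [H, mem_insert, mem_singleton] at hh hh'
    rcases hh with rfl | rfl <;> rcases hh' with rfl | rfl
    · exact hne' rfl
    · apply hdiff
      have e : f p * (2 * (x : ℤ))
          = -(f p * ((n₀ : ℤ) - x) - f p * ((n₀ : ℤ) + x)) := by ring
      rw [e]
      exact (dvd_neg.2 hd)
    · apply hdiff
      convert hd using 1
      ring
    · exact hne' rfl
  have hb2 : ∀ p ∈ Pz z ∪ big, 2 ≤ p := by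
    intro p hp
    rcases mem_union.1 hp with h | h
    · exact (mem_Pz.1 h).1.two_le
    · rw [hbig, mem_filter] at h
      exact (Nat.prime_of_mem_primeFactors h.1).two_le
  have hmain := hM₀ M hM R 2 (by norm_num) hRs hRc (Pz z ∪ big) hb2 hgood (Bx n₀ P M x)
    (filter_subset _ _) (by
      intro m hm p hp h16 hpM hmem
      rw [Bx, mem_filter, mem_Icc] at hm
      obtain ⟨⟨hm1, hm2⟩, hp1, hp2⟩ := hm
      simp only [R] at hmem
      split_ifs at hmem with hcond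
      · unfold Rh at hmem
        rw [mem_filter, mem_range] at hmem
        obtain ⟨-, h, hh, hd⟩ := hmem
        have hfp := hf p hp hcond.2
        -- `p ∣ m + h`
        have h1 : (p : ℤ) ∣ (m : ℤ) + h := by
          have h2 : (m : ℤ) + h = ((m % p : ℕ) : ℤ) + h + p * ((m / p : ℕ) : ℤ) := by
            have h3 : (m : ℤ) = ((m % p : ℕ) : ℤ) + p * ((m / p : ℕ) : ℤ) := by
              exact_mod_cast (Nat.mod_add_div m p).symm
            linarith
          rw [h2]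
          exact dvd_add hd (dvd_mul_right _ _)
        have hkey : ∀ v : ℤ, h = f p * v → (p : ℤ) ∣ v + 2 * P * m := by
          intro v hv
          have h3 : (p : ℤ) ∣ 2 * P * ((m : ℤ) + h) := dvd_mul_of_dvd_right h1 _
          have h4 : (p : ℤ) ∣ (2 * P * f p - 1) * v := dvd_mul_of_dvd_left hfp _
          have h5 : v + 2 * P * m = 2 * P * ((m : ℤ) + h) - (2 * P * f p - 1) * v := by
            rw [hv]; ring
          rw [h5]
          exact dvd_sub h3 h4
        have hpM' : p ≤ M := (Nat.le_self_pow (by norm_num) p).trans hpM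
        simp only [H, mem_insert, mem_singleton] at hh
        rcases hh with hh | hh
        · have h6 := hkey _ hh
          have h7 : ((n₀ + 2 * P * m - x : ℕ) : ℤ) = (n₀ : ℤ) - x + 2 * P * m := by
            have : x ≤ n₀ + 2 * P * m := by omega
            push_cast [this]; ring
          rw [← h7] at h6
          have h8 : p ∣ n₀ + 2 * P * m - x := by exact_mod_cast h6
          have h9 := (Nat.prime_dvd_prime_iff_eq hp hp1).1 h8
          have : n₀ - x ≤ n₀ + 2 * P * m - x := Nat.sub_le_sub_right (Nat.le_add_right _ _) _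
          omega
        · have h6 := hkey _ hh
          have h7 : ((n₀ + 2 * P * m + x : ℕ) : ℤ) = (n₀ : ℤ) + x + 2 * P * m := by
            push_cast; ring
          rw [← h7] at h6
          have h8 : p ∣ n₀ + 2 * P * m + x := by exact_mod_cast h6
          have h9 := (Nat.prime_dvd_prime_iff_eq hp hp2).1 h8
          have : n₀ ≤ n₀ + 2 * P * m + x := by
            rw [add_assoc]; exact Nat.le_add_right _ _
          omega
      · exact absurd hmem (notMem_empty _))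
  refine hmain.trans ?_
  have hG0 : 0 ≤ ∏ p ∈ Pz z, (1 - 1 / (p : ℝ))⁻¹ := prod_nonneg (fun p hp => by
    have := (inv_factor (mem_Pz.1 hp).1.two_le).1
    positivity)
  have hlarge : ∏ p ∈ big, (1 - 1 / (p : ℝ))⁻¹ ≤ 4 := by
    refine large_factors x z hx hxz big (fun q hq => ?_)
    rw [hbig, mem_filter, Nat.mem_primeFactors] at hq
    exact ⟨hq.1.1, hq.1.2.1, hq.2⟩
  have hbig0 : 0 ≤ ∏ p ∈ big, (1 - 1 / (p : ℝ))⁻¹ := prod_nonneg (fun p hp => by
    have := (inv_factor (hb2 p (mem_union_right _ hp))).1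
    positivity)
  have hprod : ∏ p ∈ Pz z ∪ big, (1 - 1 / (p : ℝ))⁻¹
      ≤ 4 * ∏ p ∈ Pz z, (1 - 1 / (p : ℝ))⁻¹ := by
    have hdis : Disjoint (Pz z) big := by
      rw [disjoint_left]
      intro p hp hq
      rw [hbig, mem_filter] at hq
      have := (mem_Pz.1 hp).2
      omega
    rw [prod_union hdis, mul_comm (4 : ℝ)]
    exact mul_le_mul_of_nonneg_left hlarge hG0
  have hU0 : 0 ≤ ∏ p ∈ Pz z ∪ big, (1 - 1 / (p : ℝ))⁻¹ := prod_nonneg (fun p hp => by
    have := (inv_factor (hb2 p hp)).1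
    positivity)
  calc C * (M / Real.log M ^ 2) * (∏ p ∈ Pz z ∪ big, (1 - 1 / (p : ℝ))⁻¹) ^ 2
      ≤ C * (M / Real.log M ^ 2) * (4 * ∏ p ∈ Pz z, (1 - 1 / (p : ℝ))⁻¹) ^ 2 :=
        mul_le_mul_of_nonneg_left (pow_le_pow_left₀ hU0 hprod 2) (by positivity)
    _ = _ := by ring

/-- the `x ≤ Y` not excluded by a prime up to `z` -/
noncomputable def Ax (n₀ z Y : ℕ) : Finset ℕ := by
  classical
  exact (Icc 1 Y).filter (fun x => ∀ q : ℕ, q.Prime → 3 ≤ q → q ≤ z →
    ¬ (q : ℤ) ∣ (n₀ : ℤ) - x ∧ ¬ (q : ℤ) ∣ (n₀ : ℤ) + x)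

theorem mem_Ax {n₀ z Y x : ℕ} : x ∈ Ax n₀ z Y ↔ (1 ≤ x ∧ x ≤ Y) ∧
    ∀ q : ℕ, q.Prime → 3 ≤ q → q ≤ z → ¬ (q : ℤ) ∣ (n₀ : ℤ) - x ∧ ¬ (q : ℤ) ∣ (n₀ : ℤ) + x := by
  unfold Ax
  simp only [mem_filter, mem_Icc]

theorem Ax_le : ∃ C : ℝ, 0 < C ∧ ∃ Y₀ : ℕ, ∀ Y : ℕ, Y₀ ≤ Y → ∀ z n₀ : ℕ, Y ≤ z ^ 2 →
    ((Ax n₀ z Y).card : ℝ) ≤ C * (Y / Real.log Y ^ 2)
      * (∏ p ∈ (Pz z).filter (fun p => 3 ≤ p ∧ p ∣ n₀), (1 - 1 / (p : ℝ))⁻¹) ^ 2 := by
  classical
  obtain ⟨C, hC, M₀, hM₀⟩ := tuple_sieve'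
  refine ⟨C, hC, M₀, fun Y hY z n₀ hYz => ?_⟩
  let H : Finset ℤ := {-(n₀ : ℤ), (n₀ : ℤ)}
  let R : ℕ → Finset ℕ := fun p => if p.Prime ∧ 3 ≤ p then (if p ≤ z then Rh H p else {0, 1}) else ∅
  set bad := (Pz z).filter (fun p => 3 ≤ p ∧ p ∣ n₀) with hbad
  have hH2 : H.card ≤ 2 := card_le_two
  have hRs : ∀ p, R p ⊆ range p := by
    intro p
    simp only [R]
    split_ifs with h1 h2
    · exact filter_subset _ _
    · intro a ha
      simp only [mem_insert, mem_singleton] at ha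
      rw [mem_range]
      omega
    · exact empty_subset _
  have hRc : ∀ p, (R p).card ≤ 2 := by
    intro p
    simp only [R]
    split_ifs
    · exact (Rh_card_le _ _).trans hH2
    · exact card_le_two
    · simp
  have hgood : ∀ p, p.Prime → 16 < p → p ∉ bad → (R p).card = 2 := by
    intro p hp h16 hpb
    simp only [R]
    rw [if_pos ⟨hp, by omega⟩]
    split_ifs with hpz
    · have hpn : ¬ p ∣ n₀ := by
        intro hd
        refine hpb ?_
        rw [hbad, mem_filter]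
        exact ⟨mem_Pz.2 ⟨hp, hpz⟩, by omega, hd⟩
      have h2n : ¬ (p : ℤ) ∣ 2 * n₀ := by
        intro hd
        have h5 : p ∣ 2 * n₀ := by exact_mod_cast hd
        rcases hp.dvd_mul.1 h5 with h6 | h6
        · have := Nat.le_of_dvd (by norm_num) h6
          omega
        · exact hpn h6
      have hn0 : n₀ ≠ 0 := by
        rintro rfl
        exact hpn (dvd_zero _)
      have hne : -(n₀ : ℤ) ≠ n₀ := by omega
      rw [Rh_card_eq H p hp.pos, card_pair hne]
      intro h hh h' hh' hne' hd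
      simp only [H, mem_insert, mem_singleton] at hh hh'
      rcases hh with rfl | rfl <;> rcases hh' with rfl | rfl
      · exact hne' rfl
      · apply h2n
        have e : 2 * (n₀ : ℤ) = -(-(n₀ : ℤ) - n₀) := by ring
        rw [e]
        exact (dvd_neg.2 hd)
      · apply h2n
        convert hd using 1
        ring
      · exact hne' rfl
    · simp
  refine hM₀ Y hY R 2 (by norm_num) hRs hRc bad (fun p hp => ?_) hgood (Ax n₀ z Y) ?_ ?_
  · rw [hbad, mem_filter] at hp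
    exact (mem_Pz.1 hp.1).1.two_le
  · intro x hx
    exact mem_Icc.2 (mem_Ax.1 hx).1
  · intro x hx p hp h16 hpY hmem
    obtain ⟨hx1, hx2⟩ := mem_Ax.1 hx
    have hpz : p ≤ z := by
      have : p ^ 2 ≤ z ^ 2 := hpY.trans hYz
      exact (Nat.pow_le_pow_iff_left (by norm_num)).1 this
    simp only [R] at hmem
    rw [if_pos ⟨hp, by omega⟩, if_pos hpz] at hmem
    unfold Rh at hmem
    rw [mem_filter, mem_range] at hmem
    obtain ⟨-, h, hh, hd⟩ := hmem
    have h1 : (p : ℤ) ∣ (x : ℤ) + h := by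
      have h2 : (x : ℤ) + h = ((x % p : ℕ) : ℤ) + h + p * ((x / p : ℕ) : ℤ) := by
        have h3 : (x : ℤ) = ((x % p : ℕ) : ℤ) + p * ((x / p : ℕ) : ℤ) := by
          exact_mod_cast (Nat.mod_add_div x p).symm
        linarith
      rw [h2]
      exact dvd_add hd (dvd_mul_right _ _)
    obtain ⟨h2, h3⟩ := hx2 p hp (by omega) hpz
    simp only [H, mem_insert, mem_singleton] at hh
    rcases hh with rfl | rfl
    · apply h2
      have e : (n₀ : ℤ) - x = -((x : ℤ) + -(n₀ : ℤ)) := by ring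
      rw [e]
      exact (dvd_neg.2 h1)
    · apply h3
      convert h1 using 1
      ring

/-- the `m ≤ M` with a close solution -/
noncomputable def Gx (n₀ P M Y : ℕ) : Finset ℕ := by
  classical
  exact (Icc 1 M).filter (fun m => ∃ x : ℕ, 1 ≤ x ∧ x ≤ Y ∧
    (n₀ + 2 * P * m - x).Prime ∧ (n₀ + 2 * P * m + x).Prime)

theorem Gx_le (n₀ z M Y : ℕ) (hz : 3 ≤ z) (hzM : z ≤ M) (hn : Y + M < n₀) :
    (Gx n₀ (Md z) M Y).card ≤ ∑ x ∈ Ax n₀ z Y, (Bx n₀ (Md z) M x).card := by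
  classical
  refine le_trans (card_le_card ?_) card_biUnion_le
  intro m hm
  unfold Gx at hm
  rw [mem_filter, mem_Icc] at hm
  obtain ⟨⟨hm1, hm2⟩, x, hx1, hx2, hp1, hp2⟩ := hm
  rw [mem_biUnion]
  refine ⟨x, ?_, ?_⟩
  · rw [mem_Ax]
    refine ⟨⟨hx1, hx2⟩, fun q hq h3 hqz => ?_⟩
    have hqP : (q : ℤ) ∣ 2 * (Md z : ℤ) * m := by
      have : q ∣ 2 * Md z * m := dvd_mul_of_dvd_left (dvd_mul_of_dvd_right (dvd_Md hq h3 hqz) 2) m
      exact_mod_cast this
    constructor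
    · intro hd
      have h6 : (q : ℤ) ∣ (n₀ : ℤ) - x + 2 * (Md z : ℤ) * m := dvd_add hd hqP
      have h7 : ((n₀ + 2 * Md z * m - x : ℕ) : ℤ) = (n₀ : ℤ) - x + 2 * (Md z : ℤ) * m := by
        have : x ≤ n₀ + 2 * Md z * m := by omega
        push_cast [this]; ring
      rw [← h7] at h6
      have h8 : q ∣ n₀ + 2 * Md z * m - x := by exact_mod_cast h6
      have h9 := (Nat.prime_dvd_prime_iff_eq hq hp1).1 h8
      have : n₀ - x ≤ n₀ + 2 * Md z * m - x := Nat.sub_le_sub_right (Nat.le_add_right _ _) _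
      omega
    · intro hd
      have h6 : (q : ℤ) ∣ (n₀ : ℤ) + x + 2 * (Md z : ℤ) * m := dvd_add hd hqP
      have h7 : ((n₀ + 2 * Md z * m + x : ℕ) : ℤ) = (n₀ : ℤ) + x + 2 * (Md z : ℤ) * m := by
        push_cast; ring
      rw [← h7] at h6
      have h8 : q ∣ n₀ + 2 * Md z * m + x := by exact_mod_cast h6
      have h9 := (Nat.prime_dvd_prime_iff_eq hq hp2).1 h8
      have : n₀ ≤ n₀ + 2 * Md z * m + x := by
        rw [add_assoc]; exact Nat.le_add_right _ _
      omega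
  · unfold Bx
    rw [mem_filter, mem_Icc]
    exact ⟨⟨hm1, hm2⟩, hp1, hp2⟩

/-- The local factor of the excluded primes is bounded. -/
theorem bad_le (n₀ w z a y : ℕ) (hz : 96 ≤ z) (ha1 : 1 ≤ a) (hay : a ≤ y)
    (hlw : Real.log z ≤ (w : ℝ)) (hly : Real.log y ≤ 3 * Real.log z)
    (h : ∀ q : ℕ, q.Prime → 3 ≤ q → q ≤ z / 48 → q ∣ n₀ → w < q ∧ q ∣ a) :
    ∏ p ∈ (Pz z).filter (fun p => 3 ≤ p ∧ p ∣ n₀), (1 - 1 / (p : ℝ))⁻¹ ≤ Real.exp 204 := by
  classical
  set bad := (Pz z).filter (fun p => 3 ≤ p ∧ p ∣ n₀) with hbad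
  set z1 := z / 48 with hz1
  have hz96 : (96 : ℝ) ≤ z := by exact_mod_cast hz
  have hw1 : 1 ≤ w := by
    have h1 : 0 < Real.log z := Real.log_pos (by linarith)
    have h2 : (0 : ℝ) < w := by linarith
    exact_mod_cast h2
  have hw0 : (0 : ℝ) < w := by exact_mod_cast hw1
  have hmem : ∀ p ∈ bad, p.Prime ∧ p ≤ z ∧ 3 ≤ p ∧ p ∣ n₀ := by
    intro p hp
    rw [hbad, mem_filter] at hp
    exact ⟨(mem_Pz.1 hp.1).1, (mem_Pz.1 hp.1).2, hp.2.1, hp.2.2⟩
  rw [← prod_filter_mul_prod_filter_not bad (fun p => p ≤ z1)]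
  have hS1 : ∏ p ∈ bad.filter (fun p => p ≤ z1), (1 - 1 / (p : ℝ))⁻¹ ≤ Real.exp (2 * 6) := by
    refine few_primes _ w hw1 (fun q hq => ?_) 6 ?_
    · rw [mem_filter] at hq
      obtain ⟨h1, h2, h3, h4⟩ := hmem q hq.1
      exact ⟨h1.two_le, (h q h1 h3 hq.2 h4).1⟩
    · have h1 : 2 ^ (bad.filter (fun p => p ≤ z1)).card ≤ a := by
        refine card_le_log _ a ha1 (fun q hq => ?_)
        rw [mem_filter] at hq
        obtain ⟨h1, h2, h3, h4⟩ := hmem q hq.1
        exact ⟨h1, (h q h1 h3 hq.2 h4).2⟩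
      have h2 : ((2 : ℝ) ^ (bad.filter (fun p => p ≤ z1)).card) ≤ y := by
        exact_mod_cast h1.trans hay
      have h3 := Real.log_le_log (by positivity) h2
      rw [Real.log_pow] at h3
      have h4 := Real.log_two_gt_d9
      have h5 : (0 : ℝ) ≤ ((bad.filter (fun p => p ≤ z1)).card : ℝ) := Nat.cast_nonneg _
      nlinarith
  have hS2 : ∏ p ∈ bad.filter (fun p => ¬ p ≤ z1), (1 - 1 / (p : ℝ))⁻¹ ≤ Real.exp (2 * 96) := by
    have hz1r : (z : ℝ) ≤ 96 * z1 := by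
      have h5 : z < (z1 + 1) * 48 := by
        rw [hz1]
        have := Nat.lt_div_mul_add (a := z) (b := 48) (by norm_num)
        omega
      have h6 : z ≤ 96 * z1 := by omega
      exact_mod_cast h6
    refine few_primes _ z1 (by omega) (fun q hq => ?_) 96 ?_
    · rw [mem_filter] at hq
      exact ⟨(hmem q hq.1).1.two_le, by omega⟩
    · refine le_trans ?_ hz1r
      have : (bad.filter (fun p => ¬ p ≤ z1)).card ≤ (Icc 1 z).card := by
        refine card_le_card (fun p hp => ?_)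
        rw [mem_filter] at hp
        obtain ⟨h1, h2, h3, h4⟩ := hmem p hp.1
        exact mem_Icc.2 ⟨by omega, h2⟩
      rw [Nat.card_Icc, add_tsub_cancel_right] at this
      exact_mod_cast this
  have h0 : 0 ≤ ∏ p ∈ bad.filter (fun p => ¬ p ≤ z1), (1 - 1 / (p : ℝ))⁻¹ :=
    prod_nonneg (fun p hp => by
      have := (inv_factor (hmem p (mem_filter.1 hp).1).1.two_le).1
      positivity)
  calc _ ≤ Real.exp (2 * 6) * Real.exp (2 * 96) :=
        mul_le_mul hS1 hS2 h0 (Real.exp_pos _).le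
    _ = Real.exp 204 := by rw [← Real.exp_add]; norm_num

/-- Few `m` have a close solution. -/
theorem few_close : ∃ K : ℝ, 1 ≤ K ∧ ∃ z₀ : ℕ, ∀ z : ℕ, z₀ ≤ z → ∀ M Y n₀ w a y : ℕ,
    Real.exp z ≤ M → z ≤ Y → Y ≤ z ^ 2 → Y + M < n₀ → 1 ≤ a → a ≤ y →
    Real.log z ≤ (w : ℝ) → Real.log y ≤ 3 * Real.log z →
    (∀ q : ℕ, q.Prime → 3 ≤ q → q ≤ z / 48 → q ∣ n₀ → w < q ∧ q ∣ a) →
    ((Gx n₀ (Md z) M Y).card : ℝ) ≤ K * M * Y / z ^ 2 := by
  classical
  obtain ⟨C1, hC1, M₀, hB⟩ := Bx_le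
  obtain ⟨C2, hC2, Y₀, hA⟩ := Ax_le
  obtain ⟨C3, hC3, hM⟩ := mertens_upper
  refine ⟨C1 * C3 ^ 2 * (C2 * Real.exp 204 ^ 2) + 1, by
    have : 0 < C1 * C3 ^ 2 * (C2 * Real.exp 204 ^ 2) := by positivity
    linarith, max (max M₀ Y₀) 1024,
    fun z hz M Y n₀ w a y hzM hzY hYz hn ha1 hay hlw hly hdiv => ?_⟩
  have hzM₀ : M₀ ≤ z := le_trans (le_trans (le_max_left _ _) (le_max_left _ _)) hz
  have hzY₀ : Y₀ ≤ z := le_trans (le_trans (le_max_right _ _) (le_max_left _ _)) hz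
  have hz1024 : 1024 ≤ z := le_trans (le_max_right _ _) hz
  have hzr : (1024 : ℝ) ≤ z := by exact_mod_cast hz1024
  have hzM' : (z : ℝ) ≤ M := by
    have := Real.add_one_le_exp (z : ℝ)
    linarith
  have hzMn : z ≤ M := by exact_mod_cast hzM'
  have hlz : 0 < Real.log z := Real.log_pos (by linarith)
  have hlM : (z : ℝ) ≤ Real.log M := by
    rw [Real.le_log_iff_exp_le (by linarith)]
    exact hzM
  have hYr : (z : ℝ) ≤ Y := by exact_mod_cast hzY
  have hlY : Real.log z ≤ Real.log Y := Real.log_le_log (by linarith) hYr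
  set G := ∏ p ∈ Pz z, (1 - 1 / (p : ℝ))⁻¹ with hG
  have hG0 : 0 ≤ G := prod_nonneg (fun p hp => by
    have := (inv_factor (mem_Pz.1 hp).1.two_le).1
    positivity)
  have h1 : ((Gx n₀ (Md z) M Y).card : ℝ) ≤ ∑ x ∈ Ax n₀ z Y, ((Bx n₀ (Md z) M x).card : ℝ) := by
    exact_mod_cast Gx_le n₀ z M Y (by omega) hzMn hn
  have h2 : ∀ x ∈ Ax n₀ z Y, ((Bx n₀ (Md z) M x).card : ℝ)
      ≤ C1 * (M / Real.log M ^ 2) * G ^ 2 := by
    intro x hx
    obtain ⟨⟨hx1, hx2⟩, -⟩ := mem_Ax.1 hx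
    refine hB M (hzM₀.trans hzMn) z n₀ x (by omega) hx1 ?_ (by omega)
    calc x ≤ z ^ 2 := hx2.trans hYz
      _ < z ^ 3 := Nat.pow_lt_pow_right (by omega) (by norm_num)
  have h3 : ((Gx n₀ (Md z) M Y).card : ℝ)
      ≤ (Ax n₀ z Y).card * (C1 * (M / Real.log M ^ 2) * G ^ 2) := by
    refine h1.trans ((sum_le_card_nsmul _ _ _ h2).trans (by rw [nsmul_eq_mul]))
  have h4 : ((Ax n₀ z Y).card : ℝ) ≤ C2 * (Y / Real.log z ^ 2) * Real.exp 204 ^ 2 := by
    refine (hA Y (hzY₀.trans hzY) z n₀ hYz).trans ?_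
    have hb := bad_le n₀ w z a y (by omega) ha1 hay hlw hly hdiv
    have hb0 : 0 ≤ ∏ p ∈ (Pz z).filter (fun p => 3 ≤ p ∧ p ∣ n₀), (1 - 1 / (p : ℝ))⁻¹ :=
      prod_nonneg (fun p hp => by
        have := (inv_factor (mem_Pz.1 (mem_filter.1 hp).1).1.two_le).1
        positivity)
    refine mul_le_mul (mul_le_mul_of_nonneg_left ?_ hC2.le) (pow_le_pow_left₀ hb0 hb 2)
      (by positivity) (by positivity)
    exact div_le_div_of_nonneg_left (Nat.cast_nonneg Y) (by positivity)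
      (pow_le_pow_left₀ hlz.le hlY 2)
  have h5 : C1 * (M / Real.log M ^ 2) * G ^ 2
      ≤ C1 * (M / z ^ 2) * (C3 * Real.log z) ^ 2 := by
    refine mul_le_mul (mul_le_mul_of_nonneg_left ?_ hC1.le)
      (pow_le_pow_left₀ hG0 (hM z hz1024) 2) (by positivity) (by positivity)
    exact div_le_div_of_nonneg_left (Nat.cast_nonneg M) (by positivity)
      (pow_le_pow_left₀ (by linarith) hlM 2)
  have hz0 : (0 : ℝ) < z := by linarith
  calc ((Gx n₀ (Md z) M Y).card : ℝ)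
      ≤ (Ax n₀ z Y).card * (C1 * (M / Real.log M ^ 2) * G ^ 2) := h3
    _ ≤ (C2 * (Y / Real.log z ^ 2) * Real.exp 204 ^ 2)
        * (C1 * (M / z ^ 2) * (C3 * Real.log z) ^ 2) :=
        mul_le_mul h4 h5 (by positivity) (by positivity)
    _ = (C1 * C3 ^ 2 * (C2 * Real.exp 204 ^ 2)) * (M * Y / z ^ 2) := by
        field_simp
    _ ≤ (C1 * C3 ^ 2 * (C2 * Real.exp 204 ^ 2) + 1) * (M * Y / z ^ 2) := by
        refine mul_le_mul_of_nonneg_right (by linarith) (by positivity)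
    _ = _ := by ring

end Pool.Agent.H70.TS
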