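import Mathlib
import Pool.Agent.H70.LP.Mert
import Pool.Agent.H70.TS.Core

/-!
Choice of the parameters, with some room for the primes up to `w`.
-/

set_option autoImplicit false

namespace Pool.Agent.H70.TS

open Finset Pool.Agent.H70.LP

theorem ax_sq {t : ℝ} (h : 4 ≤ t) : 1 ≤ t ^ 2 := by nlinarith

theorem ax_t3 {t : ℝ} (h : 4 ≤ t) : t ≤ t ^ 3 := by nlinarith [sq_nonneg (t - 1)]

theorem ax_t4 {t : ℝ} (h : 1 ≤ t ^ 2) : 1 ≤ t ^ 4 := by nlinarith

theorem ax_mulsq {A L : ℝ} (h : A ≤ L) (hL : 0 ≤ L) : A * L ≤ L ^ 2 := by nlinarith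

theorem ax_one_mul {a b : ℝ} (ha : 1 ≤ a) (hb : 1 ≤ b) : 1 ≤ a * b := by nlinarith

theorem ax_four {z a : ℝ} (hz : 0 ≤ z) (ha : 4 ≤ a) : 4 * z ≤ z * a := by nlinarith

theorem ax_pos {K t : ℝ} (hK : 4 ≤ K) (ht : 4 ≤ t) : 0 < K * t := by nlinarith

theorem ax_Ls {a L s : ℝ} (h : a ≤ L) (hs : 1 ≤ s) (hL : 0 ≤ L) : a ≤ L * s := by nlinarith

theorem ax_s4 {s K t : ℝ} (h : s ≤ t) (hK : 4 ≤ K) (ht : 4 ≤ t) : s * 4 ≤ K * t := by nlinarith

theorem ax_L4 {L s a : ℝ} (h : s * 4 ≤ a) (hL : 0 ≤ L) : L * s * 4 ≤ L * a := by nlinarith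

theorem ax_st {s t a : ℝ} (hst : s ≤ t ^ 2) (ha : 0 ≤ a) : a * s ≤ a * t ^ 2 := by nlinarith

theorem ax_stt {s t : ℝ} (hst : s ≤ t) (ht : 4 ≤ t) : s ≤ t ^ 2 := by nlinarith

theorem ax_Kst {s t K : ℝ} (hst : s ≤ t) (hK : 4 ≤ K) : K * s ≤ K * t := by nlinarith

theorem ax_K3 {t K : ℝ} (ht : t ≤ t ^ 3) (hK : 4 ≤ K) : K * t ≤ K * t ^ 3 := by nlinarith

theorem sum_pc_le (y z1 : ℕ) (hz1 : 2 ≤ z1) (hy : z1 ≤ y) :
    ((∑ m ∈ Icc 1 (y / z1), pc (y / m) : ℕ) : ℝ)
      ≤ 6 * y / Real.log z1 * (1 + Real.log ((y : ℝ) / z1)) := by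
  have hz : (2 : ℝ) ≤ z1 := by exact_mod_cast hz1
  have hl : 0 < Real.log z1 := Real.log_pos (by linarith)
  have hyz : (z1 : ℝ) ≤ y := by exact_mod_cast hy
  push_cast
  have h1 : ∀ m ∈ Icc 1 (y / z1), (pc (y / m) : ℝ) ≤ 6 * y / Real.log z1 * (m : ℝ)⁻¹ := by
    intro m hm
    rw [mem_Icc] at hm
    have hm0 : 0 < m := by omega
    have h2 : z1 ≤ y / m := by
      rw [Nat.le_div_iff_mul_le hm0]
      calc z1 * m ≤ z1 * (y / z1) := Nat.mul_le_mul_left _ hm.2
        _ ≤ y := Nat.mul_div_le y z1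
    have h3 := pc_le (y / m) (by omega)
    have h4 : (((y / m : ℕ)) : ℝ) ≤ (y : ℝ) / m := Nat.cast_div_le
    have h5 : (z1 : ℝ) ≤ ((y / m : ℕ) : ℝ) := by exact_mod_cast h2
    have hm1 : (0 : ℝ) < m := by exact_mod_cast hm0
    calc (pc (y / m) : ℝ) ≤ 6 * ((y / m : ℕ) : ℝ) / Real.log ((y / m : ℕ) : ℝ) := h3
      _ ≤ 6 * ((y : ℝ) / m) / Real.log z1 := by
          refine div_le_div₀ (by positivity) (by linarith) hl (Real.log_le_log (by linarith) h5)
      _ = 6 * y / Real.log z1 * (m : ℝ)⁻¹ := by field_simp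
  refine (sum_le_sum h1).trans ?_
  rw [← mul_sum]
  refine mul_le_mul_of_nonneg_left ?_ (by positivity)
  have h2 := harmonic_le_one_add_log (y / z1)
  rw [harmonic_eq_sum_Icc] at h2
  push_cast at h2
  refine h2.trans ?_
  have h3 : 1 ≤ y / z1 := by
    rw [Nat.le_div_iff_mul_le (by omega)]; omega
  have h4 : (((y / z1 : ℕ)) : ℝ) ≤ (y : ℝ) / z1 := Nat.cast_div_le
  have h5 : (0 : ℝ) < ((y / z1 : ℕ) : ℝ) := by exact_mod_cast h3
  have := Real.log_le_log h5 h4
  linarith

theorem main_ineq2 : ∃ c : ℝ, 0 < c ∧ ∃ z₀ : ℕ, ∀ z : ℕ, z₀ ≤ z → ∃ y w : ℕ,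
    2 ≤ w ∧ w ≤ z / 48 ∧ 0 < y ∧ ((Ioc w (z / 48)).filter Nat.Prime).Nonempty ∧
    2 * ((((Icc 1 y).filter Nat.Prime).card : ℕ) : ℝ) * (sift y w (z / 48) : ℝ) / y
      * ∏ q ∈ (Icc 3 w).filter Nat.Prime, (1 - 1 / (q : ℝ)) + w
      ≤ (((Ioc (z / 48) z).filter Nat.Prime).card : ℝ) ∧
    c * (z * Real.log z ^ 2 * Real.log (Real.log (Real.log z)) / Real.log (Real.log z) ^ 2)
      ≤ (y : ℝ) ∧ Real.log z ≤ (w : ℝ) ∧ Real.log y ≤ 3 * Real.log z := by
  obtain ⟨C, hC0, hC⟩ := smooth_bound
  obtain ⟨n₀, hn₀⟩ := large_ge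
  set K : ℝ := 4 * (3 * C + 1) with hK
  have hK4 : 4 ≤ K := by rw [hK]; linarith
  set c0 : ℝ := 1 / (2 * (9408 * K)) with hc0
  have hc0pos : 0 < c0 := by rw [hc0]; positivity
  have hc0le : c0 * (9408 * K) = 1 / 2 := by rw [hc0]; field_simp
  have hc0le1 : 96 * c0 ≤ 1 := by nlinarith
  set D : ℝ := 8 * K ^ 2 + 4 / c0 + 200 with hD
  have hDK : 8 * K ^ 2 ≤ D := by rw [hD]; have : 0 < 4 / c0 := by positivity
                                 linarith
  have hDc : 4 ≤ c0 * D := by
    have h1 : c0 * (4 / c0) = 4 := by field_simp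
    have h2 : 0 ≤ c0 * (8 * K ^ 2 + 200) := by positivity
    calc (4 : ℝ) = c0 * (4 / c0) := h1.symm
      _ ≤ c0 * D := by rw [hD]; nlinarith
  have hD200 : 200 ≤ D := by
    rw [hD]; have : 0 < 4 / c0 := by positivity
    nlinarith [sq_nonneg K]
  -- eventually facts
  have ev1 : ∀ᶠ t : ℝ in Filter.atTop, D * t ^ 4 ≤ Real.exp t := by
    have h1 := (Real.tendsto_exp_div_pow_atTop 4).eventually_ge_atTop D
    filter_upwards [h1, Filter.eventually_gt_atTop (0 : ℝ)] with t ht ht0
    rwa [le_div_iff₀ (by positivity)] at ht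
  have ev2 : ∀ᶠ t : ℝ in Filter.atTop, 1 ≤ Real.log t := Real.tendsto_log_atTop.eventually_ge_atTop 1
  have ev3 : ∀ᶠ t : ℝ in Filter.atTop, K ≤ t := Filter.eventually_ge_atTop K
  have tend : Filter.Tendsto (fun z : ℕ => Real.log (Real.log (z : ℝ))) Filter.atTop Filter.atTop :=
    Real.tendsto_log_atTop.comp (Real.tendsto_log_atTop.comp tendsto_natCast_atTop_atTop)
  have ev4 := tend.eventually (ev1.and (ev2.and ev3))
  have ev5 : ∀ᶠ z : ℕ in Filter.atTop, 1 ≤ Real.log (z : ℝ) :=
    (Real.tendsto_log_atTop.comp tendsto_natCast_atTop_atTop).eventually_ge_atTop 1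
  obtain ⟨z₀, hz₀⟩ := Filter.eventually_atTop.1 (ev4.and ev5)
  refine ⟨c0 / 2, by positivity, max (max z₀ n₀) 3, fun z hz => ?_⟩
  have hzz₀ : z₀ ≤ z := le_trans (le_trans (le_max_left _ _) (le_max_left _ _)) hz
  have hzn₀ : n₀ ≤ z := le_trans (le_trans (le_max_right _ _) (le_max_left _ _)) hz
  have hz3 : 3 ≤ z := le_trans (le_max_right _ _) hz
  obtain ⟨⟨h1, h2, h3⟩, h4⟩ := hz₀ z hzz₀
  set L := Real.log (z : ℝ) with hL
  set t := Real.log L with ht
  set s := Real.log t with hs
  have hz0 : (3 : ℝ) ≤ z := by exact_mod_cast hz3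
  have hexpL : Real.exp L = z := Real.exp_log (by linarith)
  have hexpt : Real.exp t = L := Real.exp_log (by linarith)
  have ht4 : 4 ≤ t := hK4.trans h3
  have hexps : Real.exp s = t := Real.exp_log (by linarith)
  have hst : s ≤ t := by have := Real.log_le_sub_one_of_pos (show 0 < t by linarith); linarith
  rw [hexpt] at h1
  have ht1 : 1 ≤ t ^ 2 := ax_sq ht4
  have hL200 : 200 ≤ L := by
    have : 200 * 1 ≤ D * t ^ 4 := mul_le_mul hD200 (ax_t4 ht1) (by norm_num) (by linarith)
    linarith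
  -- the size of y
  set Y0 : ℝ := c0 * (z * L ^ 2 * s / t ^ 2) with hY0
  have hL2 : D * t ^ 4 * L ≤ L ^ 2 := ax_mulsq h1 (by linarith)
  have hfac : 4 ≤ c0 * (L ^ 2 * s / t ^ 2) := by
    have h5 : D * t ^ 2 * L ≤ L ^ 2 * s / t ^ 2 := by
      rw [le_div_iff₀ (by positivity)]
      calc D * t ^ 2 * L * t ^ 2 = D * t ^ 4 * L * 1 := by ring
        _ ≤ L ^ 2 * s := mul_le_mul hL2 h2 (by norm_num) (by positivity)
    have h6 : c0 * (D * t ^ 2 * L) ≤ c0 * (L ^ 2 * s / t ^ 2) :=
      mul_le_mul_of_nonneg_left h5 hc0pos.le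
    have h7 : 4 * 1 ≤ (c0 * D) * (t ^ 2 * L) :=
      mul_le_mul hDc (ax_one_mul ht1 (by linarith)) (by norm_num) (by linarith)
    calc (4 : ℝ) ≤ (c0 * D) * (t ^ 2 * L) := by linarith
      _ = c0 * (D * t ^ 2 * L) := by ring
      _ ≤ _ := h6
  have hY0z : 4 * (z : ℝ) ≤ Y0 := by
    have : Y0 = z * (c0 * (L ^ 2 * s / t ^ 2)) := by rw [hY0]; ring
    rw [this]
    exact ax_four (by linarith) hfac
  set y := ⌊Y0⌋₊ with hy
  have hyle : (y : ℝ) ≤ Y0 := Nat.floor_le (by linarith)
  have hyge : Y0 - 1 ≤ (y : ℝ) := by have := Nat.lt_floor_add_one Y0; linarith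
  have hyz : (z : ℝ) ≤ y := by linarith
  have hy0 : 0 < y := by
    have : (0 : ℝ) < y := by linarith
    exact_mod_cast this
  -- the size of w
  set W : ℝ := L * s / (K * t) with hW
  have hKt : 0 < K * t := ax_pos hK4 ht4
  have hWge : D / K * t ^ 3 ≤ W := by
    rw [hW, le_div_iff₀ hKt]
    have : D / K * t ^ 3 * (K * t) = D * t ^ 4 := by field_simp
    rw [this]
    exact ax_Ls h1 h2 (by linarith)
  have hDK' : 8 * K ≤ D / K := by
    rw [le_div_iff₀ (by linarith)]
    have : 8 * K * K = 8 * K ^ 2 := by ring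
    rw [this]
    exact hDK
  have ht3 : 1 ≤ t ^ 3 := one_le_pow₀ (by linarith)
  have hW8 : 32 ≤ W := by
    have : 32 * 1 ≤ D / K * t ^ 3 := mul_le_mul (by linarith) ht3 (by norm_num) (by linarith)
    linarith
  have hWL : W ≤ L / 4 := by
    rw [hW, div_le_div_iff₀ hKt (by norm_num)]
    exact ax_L4 (ax_s4 hst hK4 ht4) (by linarith)
  set w := ⌊Real.exp W⌋₊ with hw
  have hexpW : W + 1 ≤ Real.exp W := Real.add_one_le_exp W
  have hwle : (w : ℝ) ≤ Real.exp W := Nat.floor_le (Real.exp_pos W).le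
  have hwge : Real.exp W - 1 ≤ (w : ℝ) := by have := Nat.lt_floor_add_one (Real.exp W); linarith
  have hw3 : 3 ≤ w := by
    have : (3 : ℝ) ≤ w := by linarith
    exact_mod_cast this
  have hw0 : (3 : ℝ) ≤ w := by exact_mod_cast hw3
  have hlogw : W / 2 ≤ Real.log w := by
    have h5 : Real.exp W / 2 ≤ w := by linarith
    have h6 : Real.log (Real.exp W / 2) ≤ Real.log w := Real.log_le_log (by positivity) h5
    rw [Real.log_div (Real.exp_pos W).ne' (by norm_num), Real.log_exp] at h6
    have := Real.log_two_lt_d9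
    linarith
  have hlogw' : Real.log w ≤ W := by
    have := Real.log_le_log (by linarith) hwle
    rwa [Real.log_exp] at this
  have hlogw0 : 0 < Real.log w := by linarith
  -- comparison of w and z
  have h96 : 96 * w ≤ z := by
    have h5 : (96 : ℝ) ≤ Real.exp (L / 2) := by
      have := Real.add_one_le_exp (L / 2); linarith
    have h6 : (w : ℝ) ≤ Real.exp (L / 2) := hwle.trans (Real.exp_le_exp.2 (by linarith))
    have h7 : Real.exp (L / 2) * Real.exp (L / 2) = z := by
      rw [← Real.exp_add, ← hexpL]; congr 1; ring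
    have h8 : (96 : ℝ) * w ≤ z := by
      rw [← h7]
      exact mul_le_mul h5 h6 (by linarith) (Real.exp_pos _).le
    exact_mod_cast h8
  have hz1 : 2 * w ≤ z / 48 := by rw [Nat.le_div_iff_mul_le (by norm_num)]; omega
  refine ⟨y, w, by omega, by omega, hy0, ?_, ?_, ?_, ?_, ?_⟩
  · obtain ⟨p, hp1, hp2, hp3⟩ := Nat.exists_prime_lt_and_le_two_mul w (by omega)
    exact ⟨p, by simp only [mem_filter, mem_Ioc]; exact ⟨⟨hp2, by omega⟩, hp1⟩⟩
  · -- the inequality
    set z1 := z / 48 with hz1def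
    have hz1r : (z : ℝ) / 96 ≤ z1 := by
      have h5 : z < (z1 + 1) * 48 := by
        rw [hz1def]
        have := Nat.lt_div_mul_add (a := z) (b := 48) (by norm_num)
        omega
      have h6 : (z : ℝ) ≤ ((z1 : ℝ) + 1) * 48 := by exact_mod_cast h5.le
      have h7 : (6 : ℝ) ≤ z1 := by exact_mod_cast (by omega : 6 ≤ z1)
      linarith
    have hz1z : (z1 : ℝ) ≤ z := by exact_mod_cast Nat.div_le_self z 48
    have hz1y : z1 ≤ y := by
      have : (z1 : ℝ) ≤ y := by linarith
      exact_mod_cast this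
    have hlogz1 : L / 2 ≤ Real.log z1 := by
      have h5 : Real.log ((z : ℝ) / 96) ≤ Real.log z1 := Real.log_le_log (by positivity) hz1r
      rw [Real.log_div (by linarith) (by norm_num)] at h5
      have h6 : Real.log 96 ≤ 95 := by
        have := Real.log_le_sub_one_of_pos (show (0 : ℝ) < 96 by norm_num); linarith
      linarith
    have hratio : (y : ℝ) / z1 ≤ L ^ 3 := by
      have hz1pos : (0 : ℝ) < z1 := by linarith
      rw [div_le_iff₀ hz1pos]
      have h5 : Y0 ≤ c0 * (z * L ^ 2) := by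
        rw [hY0]
        refine mul_le_mul_of_nonneg_left ?_ hc0pos.le
        rw [div_le_iff₀ (by positivity)]
        exact ax_st (ax_stt hst ht4) (by positivity)
      have h6 : c0 * (z * L ^ 2) ≤ L ^ 3 * (z / 96) := by
        have h7 : c0 * (z * L ^ 2) = (96 * c0) * (z / 96 * L ^ 2) := by ring
        rw [h7]
        have h8 : (96 * c0) * (z / 96 * L ^ 2) ≤ 1 * (z / 96 * L ^ 2) :=
          mul_le_mul_of_nonneg_right hc0le1 (by positivity)
        have h9 : z / 96 * L ^ 2 ≤ L ^ 3 * (z / 96) := by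
          have : L ^ 2 ≤ L ^ 3 := pow_le_pow_right₀ (by linarith) (by norm_num)
          have h10 : z / 96 * L ^ 2 ≤ z / 96 * L ^ 3 :=
            mul_le_mul_of_nonneg_left this (by positivity)
          rw [mul_comm (L ^ 3)]
          exact h10
        linarith
      have h7 : L ^ 3 * (z / 96) ≤ L ^ 3 * z1 := mul_le_mul_of_nonneg_left hz1r (by positivity)
      linarith
    have hlogratio : Real.log ((y : ℝ) / z1) ≤ 3 * t := by
      have h5 : Real.log ((y : ℝ) / z1) ≤ Real.log (L ^ 3) :=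
        Real.log_le_log (div_pos (by linarith) (by linarith)) hratio
      rw [Real.log_pow] at h5
      push_cast at h5
      exact h5
    have hsum : ((∑ m ∈ Icc 1 (y / z1), pc (y / m) : ℕ) : ℝ) ≤ 48 * (y * t / L) := by
      refine (sum_pc_le y z1 (by omega) hz1y).trans ?_
      have h5 : 6 * (y : ℝ) / Real.log z1 ≤ 6 * y / (L / 2) :=
        div_le_div_of_nonneg_left (by positivity) (by linarith) hlogz1
      have h6 : 1 + Real.log ((y : ℝ) / z1) ≤ 4 * t := by linarith
      have h7 : 6 * (y : ℝ) / Real.log z1 * (1 + Real.log ((y : ℝ) / z1))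
          ≤ 6 * y / (L / 2) * (4 * t) :=
        mul_le_mul h5 h6 (by
          have : 0 ≤ Real.log ((y : ℝ) / z1) := Real.log_nonneg (by
            rw [le_div_iff₀ (by linarith)]; linarith)
          linarith) (by positivity)
      refine h7.trans (le_of_eq ?_)
      field_simp
      ring
    -- smooth part
    have hsmooth : (((Icc 1 y).filter (fun d => d ∈ Nat.smoothNumbers (w + 1))).card : ℝ)
        ≤ y * t / L := by
      set u : ℝ := K * t / s with hu
      have hu4 : K ≤ u := by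
        rw [hu, le_div_iff₀ (by linarith)]
        exact ax_Kst hst hK4
      set A : ℝ := Real.log u / 2 with hA
      have hlogu0 : 0 < Real.log u := Real.log_pos (by linarith)
      have hA0 : 0 < A := by rw [hA]; linarith
      have huK : u ≤ K * t := by rw [hu]; exact div_le_self hKt.le h2
      have hAle : A ≤ K * t / 2 := by
        have := Real.log_le_sub_one_of_pos (show 0 < u by linarith)
        rw [hA]; linarith
      set η : ℝ := A / Real.log w with hη
      have hη0 : 0 ≤ η := by positivity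
      have hη1 : η ≤ 1 / 4 := by
        rw [hη, div_le_iff₀ hlogw0]
        have h5 : 8 * K * t ^ 3 ≤ W := (mul_le_mul_of_nonneg_right hDK' (by positivity)).trans hWge
        have h6 : K * t ≤ K * t ^ 3 := ax_K3 (ax_t3 ht4) hK4
        have h7 : 8 * K * t ^ 3 = 8 * (K * t ^ 3) := by ring
        rw [h7] at h5
        linarith
      have hb := hC y w η (by omega) hw3 hη0 hη1
      have hηw : η * Real.log w = A := by rw [hη]; field_simp
      rw [hηw] at hb
      have hlogy : L ≤ Real.log y := Real.log_le_log (by linarith) hyz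
      have hηy : A * u ≤ η * Real.log y := by
        have h5 : A * u = A / W * L := by
          rw [hu, hW]; field_simp
        rw [h5, hη]
        refine mul_le_mul ?_ hlogy (by linarith) (by positivity)
        exact div_le_div_of_nonneg_left hA0.le hlogw0 hlogw'
      have hlogu : s / 2 ≤ Real.log u := by
        rw [hu, Real.log_div hKt.ne' (by linarith), Real.log_mul (by linarith) (by linarith)]
        have h5 : Real.log s ≤ s / 2 := by
          have h6 := Real.log_le_sub_one_of_pos (show 0 < s / 2 by linarith)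
          rw [Real.log_div (by linarith) (by norm_num)] at h6
          have := Real.log_two_lt_d9
          linarith
        have h6 : 0 ≤ Real.log K := Real.log_nonneg (by linarith)
        linarith
      have hAu : K * t / 4 ≤ A * u := by
        have h5 : s / 4 * u = K * t / 4 := by rw [hu]; field_simp
        rw [← h5]
        refine mul_le_mul_of_nonneg_right ?_ (by linarith)
        rw [hA]; linarith
      have hexpA : Real.exp A ≤ t := by
        rw [← hexps, Real.exp_le_exp, hA]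
        have h5 : Real.log u ≤ Real.log (t ^ 2) := Real.log_le_log (by linarith) (by
          rw [hu, div_le_iff₀ (by linarith)]
          have h6 : K * t ≤ t ^ 2 := by
            rw [pow_two]; exact mul_le_mul_of_nonneg_right h3 (by linarith)
          have h7 : t ^ 2 * 1 ≤ t ^ 2 * s := mul_le_mul_of_nonneg_left h2 (by positivity)
          linarith)
        rw [Real.log_pow] at h5
        push_cast at h5
        linarith
      have hllw : Real.log (Real.log w) ≤ t := by
        exact Real.log_le_log hlogw0 (by linarith)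
      refine hb.trans ?_
      have h5 : -(η * Real.log y) + C * (Real.log (Real.log w) + Real.exp A + 1) ≤ -t := by
        have h6 : C * (Real.log (Real.log w) + Real.exp A + 1) ≤ C * (3 * t) :=
          mul_le_mul_of_nonneg_left (by linarith) hC0.le
        have h7 : K * t / 4 = C * (3 * t) + t := by rw [hK]; ring
        linarith
      have h6 : Real.exp (-(η * Real.log y) + C * (Real.log (Real.log w) + Real.exp A + 1))
          ≤ 1 / L := by
        refine (Real.exp_le_exp.2 h5).trans ?_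
        rw [Real.exp_neg, hexpt, one_div]
      calc _ ≤ (y : ℝ) * (1 / L) := mul_le_mul_of_nonneg_left h6 (by linarith)
        _ = y * 1 / L := by ring
        _ ≤ y * t / L := by
            refine div_le_div_of_nonneg_right ?_ (by linarith)
            exact mul_le_mul_of_nonneg_left (by linarith) (by linarith)
    have hsift : (sift y w z1 : ℝ) ≤ 49 * (y * t / L) := by
      have h5 := sift_le y w z1 (by omega)
      have h6 : (sift y w z1 : ℝ)
          ≤ (((Icc 1 y).filter (fun d => d ∈ Nat.smoothNumbers (w + 1))).card : ℝ)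
            + ((∑ m ∈ Icc 1 (y / z1), pc (y / m) : ℕ) : ℝ) := by exact_mod_cast h5
      linarith
    have hprod := odd_prod_le w hw3
    have hprod' : ∏ q ∈ (Icc 3 w).filter Nat.Prime, (1 - 1 / (q : ℝ)) ≤ 4 * K * t / (L * s) := by
      refine hprod.trans ?_
      have h5 : 2 / Real.log w ≤ 2 / (W / 2) := div_le_div_of_nonneg_left (by norm_num)
        (by linarith) hlogw
      refine h5.trans (le_of_eq ?_)
      rw [hW]; field_simp; ring
    have hpcy : (pc y : ℝ) ≤ 6 * y / L := by
      refine (pc_le y (by omega)).trans ?_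
      exact div_le_div_of_nonneg_left (by positivity) (by linarith)
        (Real.log_le_log (by linarith) hyz)
    have hprod0 : 0 ≤ ∏ q ∈ (Icc 3 w).filter Nat.Prime, (1 - 1 / (q : ℝ)) := by
      refine prod_nonneg (fun q hq => ?_)
      simp only [mem_filter, mem_Icc] at hq
      have hq1 : (1 : ℝ) ≤ q := by exact_mod_cast (by omega : 1 ≤ q)
      have : 1 / (q : ℝ) ≤ 1 := by rw [div_le_one (by linarith)]; exact hq1
      linarith
    have hyr : (0 : ℝ) < y := by linarith
    refine le_trans ?_ (hn₀ z hzn₀)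
    have hL0' : (0 : ℝ) < L := by linarith
    have hwsmall : (w : ℝ) ≤ z / (8 * L) := by
      have g1 : (w : ℝ) ≤ Real.exp (L / 4) := hwle.trans (Real.exp_le_exp.2 hWL)
      have g2 : Real.exp (L / 4) * Real.exp (3 * L / 4) = z := by
        rw [← Real.exp_add, ← hexpL]; congr 1; ring
      have g3 : 8 * L ≤ Real.exp (3 * L / 4) := by
        have g4 := Real.quadratic_le_exp_of_nonneg (show 0 ≤ 3 * L / 4 by linarith)
        have g5 : 200 * L ≤ L * L := mul_le_mul_of_nonneg_right hL200 hL0'.le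
        have g6 : (3 * L / 4) ^ 2 / 2 = 9 / 32 * (L * L) := by ring
        rw [g6] at g4
        linarith
      rw [le_div_iff₀ (by positivity), ← g2]
      exact mul_le_mul g1 g3 (by positivity) (Real.exp_pos _).le
    have hsplit : (z : ℝ) / (4 * L) = z / (8 * L) + z / (8 * L) := by field_simp; ring
    rw [hsplit]
    refine add_le_add ?_ hwsmall
    change 2 * (pc y : ℝ) * (sift y w z1 : ℝ) / y * _ ≤ _
    have h5 : 2 * (pc y : ℝ) * (sift y w z1 : ℝ) / y ≤ 588 * (y * t / L ^ 2) := by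
      rw [div_le_iff₀ hyr]
      calc 2 * (pc y : ℝ) * (sift y w z1 : ℝ)
          ≤ 2 * (6 * y / L) * (49 * (y * t / L)) := by
            refine mul_le_mul (by linarith) hsift (Nat.cast_nonneg _) (by positivity)
        _ = 588 * (y * t / L ^ 2) * y := by field_simp; ring
    have h6 : 2 * (pc y : ℝ) * (sift y w z1 : ℝ) / y
        * ∏ q ∈ (Icc 3 w).filter Nat.Prime, (1 - 1 / (q : ℝ))
        ≤ 588 * (y * t / L ^ 2) * (4 * K * t / (L * s)) :=
      mul_le_mul h5 hprod' hprod0 (by positivity)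
    refine h6.trans ?_
    have h7 : 588 * ((y : ℝ) * t / L ^ 2) * (4 * K * t / (L * s))
        = 2352 * K * t ^ 2 / (L ^ 3 * s) * y := by field_simp; ring
    rw [h7]
    have h8 : 2352 * K * t ^ 2 / (L ^ 3 * s) * y ≤ 2352 * K * t ^ 2 / (L ^ 3 * s) * Y0 :=
      mul_le_mul_of_nonneg_left hyle (by positivity)
    refine h8.trans (le_of_eq ?_)
    have hL0 : L ≠ 0 := by linarith
    have ht0 : t ≠ 0 := by linarith
    have hs0 : s ≠ 0 := by linarith
    have h9 : 2352 * K * t ^ 2 / (L ^ 3 * s) * (c0 * (z * L ^ 2 * s / t ^ 2))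
        = (c0 * (9408 * K)) * (z / (4 * L)) := by
      field_simp
      ring
    rw [hY0, h9, hc0le]
    field_simp
    ring
  · -- lower bound for y
    have : c0 / 2 * (z * L ^ 2 * s / t ^ 2) = Y0 / 2 := by rw [hY0]; ring
    rw [this]
    linarith
  · -- lower bound for w
    have g1 : 8 * K * t ^ 3 ≤ W := (mul_le_mul_of_nonneg_right hDK' (by positivity)).trans hWge
    have g2 : 2 * t ≤ W := by
      have h5 : t * 1 ≤ t * t ^ 2 := mul_le_mul_of_nonneg_left ht1 (by linarith)
      have h6 : t * t ^ 2 = t ^ 3 := by ring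
      rw [h6] at h5
      have h7 : 32 * t ^ 3 ≤ 8 * K * t ^ 3 :=
        mul_le_mul_of_nonneg_right (by linarith) (by linarith)
      linarith
    have g3 : L + 1 ≤ Real.exp W := by
      have g4 : Real.exp (t + t) ≤ Real.exp W := Real.exp_le_exp.2 (by linarith)
      rw [Real.exp_add, hexpt] at g4
      have g5 : 200 * L ≤ L * L := mul_le_mul_of_nonneg_right hL200 (by linarith)
      linarith
    linarith
  · -- upper bound for log y
    have g1 : Y0 ≤ z ^ 3 := by
      have h5 : Y0 ≤ c0 * (z * L ^ 2) := by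
        rw [hY0]
        refine mul_le_mul_of_nonneg_left ?_ hc0pos.le
        rw [div_le_iff₀ (by positivity)]
        exact ax_st (ax_stt hst ht4) (by positivity)
      have h6 : L ≤ z := by
        have := Real.add_one_le_exp L
        rw [hexpL] at this
        linarith
      have h7 : L ^ 2 ≤ (z : ℝ) ^ 2 := pow_le_pow_left₀ (by linarith) h6 2
      have h8 : c0 * (z * L ^ 2) ≤ 1 * (z * z ^ 2) :=
        mul_le_mul (by linarith) (mul_le_mul_of_nonneg_left h7 (by linarith)) (by positivity)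
          (by norm_num)
      calc Y0 ≤ c0 * (z * L ^ 2) := h5
        _ ≤ 1 * (z * z ^ 2) := h8
        _ = z ^ 3 := by ring
    have g2 : (0 : ℝ) < y := by exact_mod_cast hy0
    have g3 := Real.log_le_log g2 (hyle.trans g1)
    rw [Real.log_pow] at g3
    push_cast at g3
    exact g3

end Pool.Agent.H70.TS
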